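import Pool.Agent.Run7.h197.BK.AuxF

/-!
Linear forms in logarithms of algebraic numbers, sharp in one height, III: integer values and the
Liouville inequality.
-/

set_option autoImplicit false

namespace Run7.h197.BK

open Finset NumberField

/-- binomial coefficients of integers -/
lemma bp_int (l : ℕ) (u : ℤ) : ((Ring.choose u l : ℤ) : ℂ) = bp l (u : ℂ) := by
  have h1 := Ring.descPochhammer_eq_factorial_smul_choose u l
  have h2 : ((descPochhammer ℤ l).smeval u : ℤ) = ∏ j ∈ range l, (u - j) := by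
    rw [← descPochhammer_eval_eq_prod_range, Polynomial.eval_eq_smeval]
  rw [h2] at h1
  have h3 : (l.factorial : ℂ) ≠ 0 := by exact_mod_cast (Nat.factorial_pos l).ne'
  have h4 : (∏ j ∈ range l, ((u : ℂ) - j)) = (l.factorial : ℂ) * ((Ring.choose u l : ℤ) : ℂ) := by
    have := congrArg (fun z : ℤ => (z : ℂ)) h1
    simp only [nsmul_eq_mul] at this
    push_cast at this
    exact this
  unfold bp
  rw [Finset.prod_div_distrib]
  have h5 : ∏ t ∈ range l, ((t : ℂ) + 1) = (l.factorial : ℂ) := by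
    rw [← Finset.prod_range_add_one_eq_factorial]
    push_cast
    rfl
  rw [h4, h5]
  field_simp

lemma bp_zero (u : ℂ) : bp 0 u = 1 := by simp [bp]

/-- `binom (l) (l') = 0` for `l < l'` -/
lemma bp_nat_eq_zero {l l' : ℕ} (h : l < l') : bp l' (l : ℂ) = 0 := by
  unfold bp
  apply Finset.prod_eq_zero (Finset.mem_range.mpr h)
  simp

lemma bp_nat_self (l : ℕ) : bp l (l : ℂ) = 1 := by
  have h := bp_int l (l : ℤ)
  have h1 : Ring.choose (l : ℤ) l = 1 := by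
    rw [Ring.choose_natCast]
    simp
  rw [h1] at h
  push_cast at h
  exact h.symm

variable {K : Type} [Field K] [NumberField K]

/-- Liouville's inequality -/
theorem one_le_norm_mul_pow (σ : K →+* ℂ) (x : 𝓞 K) (hx : x ≠ 0) (B : ℝ)
    (hB : ∀ φ : K →+* ℂ, ‖φ (x : K)‖ ≤ B) :
    1 ≤ ‖σ (x : K)‖ * B ^ (Module.finrank ℚ K - 1) := by
  have h1 : 1 ≤ ‖Algebra.norm ℚ (x : K)‖ := by
    rw [← Algebra.coe_norm_int]
    have h : Algebra.norm ℤ x ≠ 0 := by rwa [Algebra.norm_ne_zero_iff]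
    have h2 : (1 : ℤ) ≤ |Algebra.norm ℤ x| := Int.one_le_abs h
    rw [← Rat.norm_cast_real, Rat.cast_intCast, Real.norm_eq_abs]
    exact_mod_cast h2
  have h2 : house (x : K) ≤ B := by
    have hB0 : 0 ≤ B := (norm_nonneg _).trans (hB σ)
    unfold house
    rw [pi_norm_le_iff_of_nonneg hB0]
    intro φ
    exact hB φ
  refine h1.trans ((norm_norm_le_norm_mul_house_pow (x : K) σ).trans ?_)
  gcongr
  exact house_nonneg _

/-- the conjugates of the values -/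
lemma int_value {τ : Type} [Fintype τ] [DecidableEq τ] {Q L : ℕ} (hL : 1 ≤ L)
    (G : ((τ → Fin Q) × Fin L) → ℤ) (a c : Option τ → 𝓞 K) (hc0 : ∀ j, c j ≠ 0)
    (u : τ → ℤ) (s : Option τ → ℕ) (T : Option τ → ℕ) (hs : ∀ j, s j ≤ T j)
    (Z : Option τ → ℝ) (hZ : ∀ j, 1 ≤ Z j) (ha : ∀ (φ : K →+* ℂ) j, ‖φ (a j : K)‖ ≤ Z j)
    (hc : ∀ (φ : K →+* ℂ) j, ‖φ (c j : K)‖ ≤ Z j) (Hg BB W : ℝ) (hHg : ∀ i, |(G i : ℝ)| ≤ Hg)
    (hBB : ∀ l < Q, ∀ i, ‖bp l (u i : ℂ)‖ ≤ BB)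
    (hW : ∏ j, Z j ^ (T j * L) ≤ W) :
    ∃ q : 𝓞 K, (∀ φ : K →+* ℂ, ‖φ (q : K)‖ ≤ ((Q ^ Fintype.card τ * L : ℕ) : ℝ) *
        (Hg * (BB ^ Fintype.card τ * W))) ∧
      ∀ φ : K →+* ℂ, φ (q : K) = (∏ j, (φ (c j : K)) ^ (s j * (L - 1))) *
      ∑ i, (G i : ℂ) * ((∏ j, bp (i.1 j : ℕ) (u j : ℂ)) *
        (∏ j, ((φ (a j : K)) / (φ (c j : K))) ^ s j) ^ (i.2 : ℕ)) := by
  let q : 𝓞 K := ∑ i, ((G i : ℤ) : 𝓞 K) * ((∏ j, ((Ring.choose (u j) (i.1 j : ℕ) : ℤ) : 𝓞 K)) *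
    ∏ j, ((a j) ^ (s j * (i.2 : ℕ)) * (c j) ^ (s j * (L - 1 - (i.2 : ℕ)))))
  have hq : ∀ φ : K →+* ℂ, φ (q : K) = ∑ i, (G i : ℂ) * ((∏ j, bp (i.1 j : ℕ) (u j : ℂ)) *
      ∏ j, (φ (a j : K) ^ (s j * (i.2 : ℕ)) * φ (c j : K) ^ (s j * (L - 1 - (i.2 : ℕ))))) := by
    intro φ
    simp only [q, map_sum, map_mul, map_prod, map_pow, map_intCast]
    apply Finset.sum_congr rfl
    intro i _
    congr 2
    apply Finset.prod_congr rfl
    intro j _
    exact bp_int _ _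
  refine ⟨q, ?_, ?_⟩
  · intro φ
    rw [hq φ]
    have hcI : (Finset.univ : Finset ((τ → Fin Q) × Fin L)).card = Q ^ Fintype.card τ * L := by
      rw [Finset.card_univ, Fintype.card_prod, Fintype.card_fun, Fintype.card_fin, Fintype.card_fin]
    rw [← hcI, ← nsmul_eq_mul, ← Finset.sum_const]
    refine (norm_sum_le _ _).trans (Finset.sum_le_sum fun i _ => ?_)
    rw [norm_mul, norm_mul, norm_prod, norm_prod, Complex.norm_intCast]
    have hHg0 : 0 ≤ Hg := (abs_nonneg _).trans (hHg i)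
    have e1 : ∏ j, ‖bp (i.1 j : ℕ) (u j : ℂ)‖ ≤ BB ^ Fintype.card τ := by
      rw [← Finset.card_univ, ← Finset.prod_const]
      exact Finset.prod_le_prod (fun _ _ => norm_nonneg _) (fun j _ => hBB _ (i.1 j).isLt j)
    have e2 : ∏ j, ‖φ (a j : K) ^ (s j * (i.2 : ℕ)) * φ (c j : K) ^ (s j * (L - 1 - (i.2 : ℕ)))‖ ≤
        W := by
      refine le_trans (Finset.prod_le_prod (fun _ _ => norm_nonneg _) (fun j _ => ?_)) hW
      rw [norm_mul, norm_pow, norm_pow]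
      calc ‖φ (a j : K)‖ ^ (s j * (i.2 : ℕ)) * ‖φ (c j : K)‖ ^ (s j * (L - 1 - (i.2 : ℕ)))
          ≤ Z j ^ (s j * (i.2 : ℕ)) * Z j ^ (s j * (L - 1 - (i.2 : ℕ))) := by
            have := ha φ j
            have := hc φ j
            have := hZ j
            gcongr
        _ = Z j ^ (s j * (i.2 : ℕ) + s j * (L - 1 - (i.2 : ℕ))) := by rw [← pow_add]
        _ ≤ Z j ^ (T j * L) := by
            apply pow_le_pow_right₀ (hZ j)
            rw [← Nat.mul_add]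
            apply Nat.mul_le_mul (hs j)
            have := i.2.isLt
            omega
    have e3 : 0 ≤ ∏ j, ‖bp (i.1 j : ℕ) (u j : ℂ)‖ := Finset.prod_nonneg (fun _ _ => norm_nonneg _)
    have e4 : 0 ≤ ∏ j, ‖φ (a j : K) ^ (s j * (i.2 : ℕ)) *
        φ (c j : K) ^ (s j * (L - 1 - (i.2 : ℕ)))‖ := Finset.prod_nonneg (fun _ _ => norm_nonneg _)
    exact mul_le_mul (hHg i) (mul_le_mul e1 e2 e4 (e3.trans e1)) (mul_nonneg e3 e4) hHg0
  · intro φ
    rw [hq φ, Finset.mul_sum]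
    apply Finset.sum_congr rfl
    intro i _
    have h1 : ∏ j, (φ (a j : K) ^ (s j * (i.2 : ℕ)) * φ (c j : K) ^ (s j * (L - 1 - (i.2 : ℕ)))) =
        (∏ j, (φ (c j : K)) ^ (s j * (L - 1))) *
          (∏ j, ((φ (a j : K)) / (φ (c j : K))) ^ s j) ^ (i.2 : ℕ) := by
      rw [← Finset.prod_pow, ← Finset.prod_mul_distrib]
      apply Finset.prod_congr rfl
      intro j _
      have hy0 : φ (c j : K) ≠ 0 := by
        rw [map_ne_zero]
        exact RingOfIntegers.coe_ne_zero_iff.mpr (hc0 j)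
      have h2 : s j * (L - 1) = s j * (i.2 : ℕ) + s j * (L - 1 - (i.2 : ℕ)) := by
        rw [← Nat.mul_add]
        congr 1
        have := i.2.isLt
        omega
      rw [h2, pow_add, div_pow, div_pow, ← pow_mul, ← pow_mul]
      field_simp
    rw [h1]
    ring

end Run7.h197.BK
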