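import Pool.Agent.Run7.h197.BK.Siegel

/-!
Linear forms in logarithms of algebraic numbers, sharp in one height, II: the auxiliary function.
-/

set_option autoImplicit false

namespace Run7.h197.BK

open Finset Polynomial

/-- **the auxiliary function** (truncated form) -/
theorem exists_aux {τ : Type} [Fintype τ] [DecidableEq τ] (Q L d H N A : ℕ) (hN : 1 ≤ N)
    (θ : τ → ℂ) (U X BB : ℝ) (hU : 1 ≤ U) (hθ : ∀ j, L * ‖θ j‖ * U ≤ X)
    (hBB : ∀ l < Q, ∏ t ∈ range l, ((U + t) / ((t : ℝ) + 1)) ≤ BB) (hBB0 : 0 ≤ BB)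
    (hA : (BB * Real.exp X) ^ Fintype.card τ ≤ A)
    (hpig : (2 * (Q ^ Fintype.card τ * L * H * A * N) + 1) ^ (2 * (Q + d) ^ Fintype.card τ) <
      (H + 1) ^ (Q ^ Fintype.card τ * L)) :
    ∃ G : ((τ → Fin Q) × Fin L) → ℤ, G ≠ 0 ∧ (∀ i, |G i| ≤ H) ∧
      ∀ u : τ → ℂ, (∀ j, ‖u j‖ ≤ U) →
        ‖∑ i, (G i : ℂ) * ∏ j, (bp (i.1 j : ℕ) (u j) * Tr d ((i.2 : ℕ) * θ j * u j))‖ ≤
          ((Q + d) ^ Fintype.card τ : ℕ) * (2 / N) := by
  classical
  have hcI : Fintype.card ((τ → Fin Q) × Fin L) = Q ^ Fintype.card τ * L := by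
    rw [Fintype.card_prod, Fintype.card_fun, Fintype.card_fin, Fintype.card_fin]
  have hcK : Fintype.card (τ → Fin (Q + d)) = (Q + d) ^ Fintype.card τ := by
    rw [Fintype.card_fun, Fintype.card_fin]
  have hUpos : 0 < U := by linarith
  let PP : ((τ → Fin Q) × Fin L) → τ → ℂ[X] := fun i j =>
    bpP U (i.1 j : ℕ) * TrP d (((i.2 : ℕ) : ℂ) * θ j * (U : ℂ))
  have hPPdeg : ∀ i j, (PP i j).natDegree < Q + d := by
    intro i j
    refine lt_of_le_of_lt (Polynomial.natDegree_mul_le) ?_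
    have h1 := natDegree_bpP U (i.1 j : ℕ)
    have h2 := natDegree_TrP d (((i.2 : ℕ) : ℂ) * θ j * (U : ℂ))
    have h3 := (i.1 j).isLt
    omega
  have hPPn : ∀ i j, n1 (PP i j) ≤ BB * Real.exp X := by
    intro i j
    refine (n1_mul _ _).trans ?_
    apply mul_le_mul _ _ (n1_nonneg _) hBB0
    · exact (n1_bpP U hUpos.le _).trans (hBB _ (i.1 j).isLt)
    · refine (n1_TrP _ _).trans (Real.exp_le_exp.mpr ?_)
      refine le_trans ?_ (hθ j)
      rw [norm_mul, norm_mul, Complex.norm_natCast, Complex.norm_real, Real.norm_eq_abs,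
        abs_of_pos hUpos]
      have h1 : ((i.2 : ℕ) : ℝ) ≤ L := by exact_mod_cast i.2.isLt.le
      have h2 := norm_nonneg (θ j)
      gcongr
  obtain ⟨G, hG, hGH, hGs⟩ := complex_siegel (I := (τ → Fin Q) × Fin L) (K := τ → Fin (Q + d))
    H N A hN (fun e i => ∏ j, (PP i j).coeff (e j : ℕ))
    (by
      intro e i
      rw [norm_prod]
      refine le_trans ?_ hA
      rw [← Finset.card_univ, ← Finset.prod_const]
      apply Finset.prod_le_prod (fun _ _ => norm_nonneg _)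
      intro j _
      exact (norm_coeff_le_n1 _ _).trans (hPPn i j))
    (by rw [hcI, hcK]; exact hpig)
  refine ⟨G, hG, hGH, ?_⟩
  intro u hu
  have e1 : ∀ i : (τ → Fin Q) × Fin L,
      ∏ j, (bp (i.1 j : ℕ) (u j) * Tr d ((i.2 : ℕ) * θ j * u j)) =
      ∑ e : τ → Fin (Q + d), (∏ j, (u j / (U : ℂ)) ^ (e j : ℕ)) *
        ∏ j, (PP i j).coeff (e j : ℕ) := by
    intro i
    have e2 : ∏ j, (bp (i.1 j : ℕ) (u j) * Tr d ((i.2 : ℕ) * θ j * u j)) =
        ∏ j, ∑ e : Fin (Q + d), (PP i j).coeff (e : ℕ) * (u j / (U : ℂ)) ^ (e : ℕ) := by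
      apply Finset.prod_congr rfl
      intro j _
      rw [← eval_eq_sum (hPPdeg i j)]
      have hUC : (U : ℂ) ≠ 0 := by exact_mod_cast hUpos.ne'
      simp only [PP, Polynomial.eval_mul, eval_bpP, eval_TrP]
      have h1 : (U : ℂ) * (u j / (U : ℂ)) = u j := by field_simp
      have h2 : ((i.2 : ℕ) : ℂ) * θ j * (U : ℂ) * (u j / (U : ℂ)) = ((i.2 : ℕ) : ℂ) * θ j * u j := by
        field_simp
      rw [h1, h2]
    rw [e2, Finset.prod_univ_sum, Fintype.piFinset_univ]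
    apply Finset.sum_congr rfl
    intro e _
    rw [← Finset.prod_mul_distrib]
    apply Finset.prod_congr rfl
    intro j _
    ring
  have e3 : ∑ i, (G i : ℂ) * ∏ j, (bp (i.1 j : ℕ) (u j) * Tr d ((i.2 : ℕ) * θ j * u j)) =
      ∑ e : τ → Fin (Q + d), (∏ j, (u j / (U : ℂ)) ^ (e j : ℕ)) *
        ∑ i, (G i : ℂ) * ∏ j, (PP i j).coeff (e j : ℕ) := by
    simp_rw [e1, Finset.mul_sum]
    rw [Finset.sum_comm]
    apply Finset.sum_congr rfl
    intro e _
    apply Finset.sum_congr rfl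
    intro i _
    ring
  rw [e3]
  calc _ ≤ ∑ e : τ → Fin (Q + d), ‖(∏ j, (u j / (U : ℂ)) ^ (e j : ℕ)) *
        ∑ i, (G i : ℂ) * ∏ j, (PP i j).coeff (e j : ℕ)‖ := norm_sum_le _ _
    _ ≤ ∑ _e : τ → Fin (Q + d), (2 : ℝ) / N := by
        apply Finset.sum_le_sum
        intro e _
        rw [norm_mul]
        have h1 : ‖∏ j, (u j / (U : ℂ)) ^ (e j : ℕ)‖ ≤ 1 := by
          rw [norm_prod]
          apply Finset.prod_le_one (fun _ _ => norm_nonneg _)
          intro j _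
          rw [norm_pow, norm_div, Complex.norm_real, Real.norm_eq_abs, abs_of_pos hUpos]
          apply pow_le_one₀ (by positivity)
          rw [div_le_one hUpos]
          exact hu j
        calc _ ≤ 1 * (2 / (N : ℝ)) := mul_le_mul h1 (hGs e) (norm_nonneg _) zero_le_one
          _ = 2 / N := one_mul _
    _ = _ := by
        rw [Finset.sum_const, Finset.card_univ, hcK, nsmul_eq_mul]

end Run7.h197.BK
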