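import Pool.Agent.Run7.h197.BK.Obstruct

/-!
Linear forms in logarithms of algebraic numbers, sharp in one height, VIII: small vectors in the
obstruction.
-/

set_option autoImplicit false

namespace Run7.h197.BK

open Finset
open Pool.Agent.Y913.Bk (qc qc_add qc_sub qc_zero qc_nsmul qc_zsmul qc_inj exists_coords
  exists_mul_mem exists_mul_mem_fin card_le_of_affine)

/-- a maximal minor -/
theorem exists_max_minor {τ : Type} [Fintype τ] [DecidableEq τ] (W : Submodule ℚ (τ → ℚ)) (ρ : ℕ)
    (hρ : Module.finrank ℚ W = ρ) :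
    ∃ f : Fin ρ → τ, ∀ x ∈ W, ∀ j, |x j| ≤ ∑ l, |x (f l)| := by
  classical
  let w : Module.Basis (Fin ρ) ℚ W := Module.finBasisOfFinrankEq ℚ W hρ
  let D : (Fin ρ → τ) → ℚ := fun f => (Matrix.of (fun k l => (w k : τ → ℚ) (f l))).det
  obtain ⟨I, hI, hIW⟩ := exists_coords W
  let e : Fin ρ ≃ {j // j ∈ I} := Fintype.equivOfCardEq (by
    rw [Fintype.card_fin, Fintype.card_coe, hI, hρ])
  have hD0 : D (fun l => (e l).1) ≠ 0 := by
    intro h0
    have h1 : (Matrix.of (fun k l => (w k : τ → ℚ) (e l).1)).transpose.det = 0 := by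
      rw [Matrix.det_transpose]
      exact h0
    obtain ⟨c, hc0, hc⟩ := Matrix.exists_mulVec_eq_zero_iff.mpr h1
    apply hc0
    have h2 : ∑ k, c k • w k = 0 := by
      apply Subtype.ext
      apply hIW _ (∑ k, c k • w k : W).2
      intro j hj
      have h3 := congrFun hc (e.symm ⟨j, hj⟩)
      simp only [Matrix.mulVec, dotProduct, Matrix.transpose_apply, Matrix.of_apply,
        Pi.zero_apply, Equiv.apply_symm_apply] at h3
      rw [Submodule.coe_sum, Finset.sum_apply]
      rw [← h3]
      apply Finset.sum_congr rfl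
      intro k _
      rw [Submodule.coe_smul, Pi.smul_apply, smul_eq_mul, mul_comm]
    have h3 := (Fintype.linearIndependent_iff.mp w.linearIndependent) c h2
    funext k
    exact h3 k
  obtain ⟨f, _, hf⟩ := Finset.exists_max_image (Finset.univ : Finset (Fin ρ → τ))
    (fun f => |D f|) ⟨_, Finset.mem_univ (fun l => (e l).1)⟩
  have hDf : 0 < |D f| := lt_of_lt_of_le (abs_pos.mpr hD0) (hf _ (Finset.mem_univ _))
  refine ⟨f, fun x hx j => ?_⟩
  let A : Matrix (Fin ρ) (Fin ρ) ℚ := Matrix.of (fun k l => (w k : τ → ℚ) (f l))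
  let r : Fin ρ → ℚ := fun k => (w k : τ → ℚ) j
  have hcr : ∀ l, A.cramer r l = D (Function.update f l j) := by
    intro l
    rw [Matrix.cramer_apply]
    show _ = (Matrix.of (fun k l' => (w k : τ → ℚ) (Function.update f l j l'))).det
    congr 1
    ext k l'
    rw [Matrix.updateCol_apply, Matrix.of_apply, Function.update_apply]
    split_ifs
    · rfl
    · rfl
  have hrel : ∀ k, ∑ l, (w k : τ → ℚ) (f l) * A.cramer r l = D f * (w k : τ → ℚ) j := by
    intro k
    have := congrFun (Matrix.mulVec_cramer A r) k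
    simp only [Matrix.mulVec, dotProduct, A, Matrix.of_apply, Pi.smul_apply, smul_eq_mul] at this
    exact this
  have hxe : x = fun i => ∑ k, w.repr ⟨x, hx⟩ k * (w k : τ → ℚ) i := by
    funext i
    have h1 := w.sum_repr ⟨x, hx⟩
    have h2 := congrArg (fun z : W => (z : τ → ℚ) i) h1
    simp only [Submodule.coe_sum, Finset.sum_apply, Submodule.coe_smul, Pi.smul_apply,
      smul_eq_mul] at h2
    exact h2.symm
  have hrelx : ∑ l, x (f l) * A.cramer r l = D f * x j := by
    conv_lhs => rw [hxe]
    rw [show x j = ∑ k, w.repr ⟨x, hx⟩ k * (w k : τ → ℚ) j from congrFun hxe j]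
    simp only [Finset.sum_mul, Finset.mul_sum]
    rw [Finset.sum_comm]
    apply Finset.sum_congr rfl
    intro k _
    have h1 := hrel k
    have h2 : D f * (w.repr ⟨x, hx⟩ k * (w k : τ → ℚ) j) =
        w.repr ⟨x, hx⟩ k * (D f * (w k : τ → ℚ) j) := by ring
    rw [h2, ← h1, Finset.mul_sum]
    apply Finset.sum_congr rfl
    intro l _
    ring
  have h1 : |D f| * |x j| ≤ |D f| * ∑ l, |x (f l)| := by
    rw [← abs_mul, ← hrelx, Finset.mul_sum]
    refine (Finset.abs_sum_le_sum_abs _ _).trans (Finset.sum_le_sum fun l _ => ?_)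
    rw [abs_mul, hcr l, mul_comm]
    exact mul_le_mul_of_nonneg_right (hf _ (Finset.mem_univ _)) (abs_nonneg _)
  exact le_of_mul_le_mul_left h1 hDf

/-- extension by zero -/
noncomputable def extL (τ : Type) : (τ → ℚ) →ₗ[ℚ] (Option τ → ℚ) where
  toFun x := fun j => j.elim 0 x
  map_add' x y := by
    funext j
    rcases j with _ | i
    · simp
    · simp
  map_smul' c x := by
    funext j
    rcases j with _ | i
    · simp
    · simp

lemma extL_none (τ : Type) (x : τ → ℚ) : extL τ x none = 0 := rfl
lemma extL_some (τ : Type) (x : τ → ℚ) (i : τ) : extL τ x (some i) = x i := rfl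

theorem finrank_comap {τ : Type} [Fintype τ] (V : Submodule ℚ (Option τ → ℚ)) (v : Option τ → ℚ)
    (hv : v ∈ V) (hv0 : v none ≠ 0) :
    Module.finrank ℚ (V.comap (extL τ)) + 1 = Module.finrank ℚ V := by
  let π : V →ₗ[ℚ] ℚ := (LinearMap.proj none : (Option τ → ℚ) →ₗ[ℚ] ℚ).comp V.subtype
  have hπ : ∀ z : V, π z = (z : Option τ → ℚ) none := fun z => rfl
  have hsurj : LinearMap.range π = ⊤ := by
    rw [LinearMap.range_eq_top]
    intro c
    refine ⟨(c / v none) • ⟨v, hv⟩, ?_⟩
    rw [map_smul, hπ, smul_eq_mul]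
    field_simp
  have h1 := LinearMap.finrank_range_add_finrank_ker π
  rw [hsurj, finrank_top, Module.finrank_self] at h1
  let E : (V.comap (extL τ)) ≃ₗ[ℚ] LinearMap.ker π :=
    { toFun := fun x => ⟨⟨extL τ x.1, x.2⟩, by rw [LinearMap.mem_ker, hπ]; rfl⟩
      map_add' := by
        intro x y
        apply Subtype.ext
        apply Subtype.ext
        exact map_add (extL τ) _ _
      map_smul' := by
        intro c x
        apply Subtype.ext
        apply Subtype.ext
        exact map_smul (extL τ) _ _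
      invFun := fun z => ⟨fun i => (z.1 : Option τ → ℚ) (some i), by
        rw [Submodule.mem_comap]
        have h2 : extL τ (fun i => (z.1 : Option τ → ℚ) (some i)) = (z.1 : Option τ → ℚ) := by
          funext j
          rcases j with _ | i
          · have := z.2
            rw [LinearMap.mem_ker, hπ] at this
            rw [extL_none, this]
          · rfl
        rw [h2]
        exact z.1.2⟩
      left_inv := by
        intro x
        apply Subtype.ext
        rfl
      right_inv := by
        intro z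
        apply Subtype.ext
        apply Subtype.ext
        funext j
        rcases j with _ | i
        · have := z.2
          rw [LinearMap.mem_ker, hπ] at this
          show extL τ _ none = _
          rw [extL_none, this]
        · rfl }
  rw [E.finrank_eq]
  omega

lemma prod_ite_fin (ρ : ℕ) (l : Fin ρ) (A B : ℕ) :
    ∏ l' : Fin ρ, (if l' = l then A else B) = A * B ^ (ρ - 1) := by
  rw [← Finset.mul_prod_erase _ _ (Finset.mem_univ l), if_pos rfl]
  congr 1
  rw [Finset.prod_congr rfl (fun l' hl' => if_neg (Finset.ne_of_mem_erase hl')),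
    Finset.prod_const, Finset.card_erase_of_mem (Finset.mem_univ _), Finset.card_univ,
    Fintype.card_fin]

/-- **small vectors** -/
theorem lattice {τ : Type} [Fintype τ] [DecidableEq τ] (S S' c1 g : ℕ)
    (C : Finset (Option τ → ℤ)) (s0 : Option τ → ℤ) (hs0 : s0 ∈ C) (ρ : ℕ) (b : Option τ → ℤ)
    (hb0 : b none ≠ 0) (hb : ∀ i : τ, |b (some i)| ≤ g * |b none|)
    (hC : ∀ s ∈ C, ∀ j, 0 ≤ s j ∧ s j < side S S' j)
    (hbV : qc b ∈ Submodule.span ℚ (qc '' ((C.image (fun s => s - s0) : Finset (Option τ → ℤ)) :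
        Set (Option τ → ℤ))))
    (hρ : ρ + 1 = Module.finrank ℚ (Submodule.span ℚ (qc '' ((C.image (fun s => s - s0) :
        Finset (Option τ → ℤ)) : Set (Option τ → ℤ)))))
    (hρm : ρ + 1 ≤ Fintype.card τ)
    (hcard : S * S' ^ ρ ≤ c1 * C.card) (hg : 1 ≤ g) (hc1 : 1 ≤ c1) (hS : 2 * c1 < S)
    (hSS' : S ≤ S') :
    ∃ (d : Option τ → ℤ) (v : Fin ρ → Option τ → ℤ) (q p0 : ℤ) (p : Fin ρ → ℤ),
      q ≠ 0 ∧ p0 ≠ 0 ∧ (∀ j, q * b j = p0 * d j + ∑ l, p l * v l j) ∧
      (∀ l, v l none = 0) ∧
      (∀ j, |d j| ≤ ((Fintype.card τ * (2 * c1 + g * S) : ℕ) : ℤ)) ∧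
      (∀ l j, |v l j| ≤ ((Fintype.card τ * (2 * c1 + g * S) : ℕ) : ℤ)) ∧
      |q| ≤ ((S * (2 * c1) ^ ρ : ℕ) : ℤ) ∧
      |p0| ≤ |b none| * ((2 * c1) ^ ρ : ℕ) ∧
      ∀ l, |p l| ≤ ((2 * c1 + g * S : ℕ) : ℤ) * |p0| := by
  classical
  set V := Submodule.span ℚ (qc '' ((C.image (fun s => s - s0) : Finset (Option τ → ℤ)) :
        Set (Option τ → ℤ))) with hV
  have hb0Q : qc b none ≠ 0 := by
    simp only [qc]
    exact_mod_cast hb0
  have hfr : Module.finrank ℚ (V.comap (extL τ)) = ρ := by
    have := finrank_comap V (qc b) hbV hb0Q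
    omega
  obtain ⟨f, hf⟩ := exists_max_minor (V.comap (extL τ)) ρ hfr
  -- the key bound for integer vectors
  have hkey : ∀ x : Option τ → ℤ, qc x ∈ V → x none = 0 → ∀ j, |x j| ≤ ∑ l, |x (some (f l))| := by
    intro x hx hx0 j
    rcases j with _ | j
    · rw [hx0, abs_zero]
      exact Finset.sum_nonneg (fun _ _ => abs_nonneg _)
    have h1 := hf (fun i => qc x (some i)) (by
      rw [Submodule.mem_comap]
      have h2 : extL τ (fun i => qc x (some i)) = qc x := by
        funext i
        rcases i with _ | i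
        · rw [extL_none]
          simp [qc, hx0]
        · rfl
      rw [h2]
      exact hx) j
    simp only [qc] at h1
    have h2 : ((|x (some j)| : ℤ) : ℚ) ≤ ((∑ l, |x (some (f l))| : ℤ) : ℚ) := by
      push_cast
      exact h1
    exact_mod_cast h2
  have hdiff0 : ∀ s ∈ C, qc (s - s0) ∈ V := by
    intro s hs
    apply Submodule.subset_span
    exact Set.mem_image_of_mem _ (Finset.mem_coe.mpr (Finset.mem_image_of_mem _ hs))
  have hdiff : ∀ s ∈ C, ∀ t ∈ C, qc (s - t) ∈ V := by
    intro s hs t ht
    have e : s - t = (s - s0) - (t - s0) := by abel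
    rw [e, qc_sub]
    exact V.sub_mem (hdiff0 s hs) (hdiff0 t ht)
  have hzero : ∀ s ∈ C, ∀ t ∈ C, s none = t none → (∀ l, s (some (f l)) = t (some (f l))) →
      s = t := by
    intro s hs t ht h0 hl
    have h1 := hkey (s - t) (hdiff s hs t ht) (by rw [Pi.sub_apply, h0, sub_self])
    have h2 : ∑ l, |(s - t) (some (f l))| = 0 := by
      apply Finset.sum_eq_zero
      intro l _
      rw [Pi.sub_apply, hl l, sub_self, abs_zero]
    rw [h2] at h1
    funext j
    have h3 := abs_eq_zero.mp (le_antisymm (h1 j) (abs_nonneg _))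
    rw [Pi.sub_apply] at h3
    omega
  have hS'pos : 0 < S' := by omega
  -- a large fibre
  obtain ⟨t0, ht0⟩ : ∃ t0 : ℤ, S' ^ ρ ≤ c1 * (C.filter (fun s => s none = t0)).card := by
    by_contra hcon
    push Not at hcon
    have h1 : C.card = ∑ t ∈ Finset.Ico (0 : ℤ) S, (C.filter (fun s => s none = t)).card := by
      apply Finset.card_eq_sum_card_fiberwise
      intro s hs
      have := hC s hs none
      rw [Finset.mem_coe, Finset.mem_Ico]
      exact this
    have h2 : c1 * C.card ≤ ∑ t ∈ Finset.Ico (0 : ℤ) S,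
        (c1 * (C.filter (fun s => s none = t)).card) := by
      rw [h1, Finset.mul_sum]
    have h3 : ∑ t ∈ Finset.Ico (0 : ℤ) S,
        (c1 * (C.filter (fun s => s none = t)).card) < ∑ t ∈ Finset.Ico (0 : ℤ) S, S' ^ ρ := by
      apply Finset.sum_lt_sum_of_nonempty
      · rw [Finset.nonempty_Ico]
        exact_mod_cast (by omega : 0 < S)
      · intro t _
        exact hcon t
    rw [Finset.sum_const, Int.card_Ico, smul_eq_mul] at h3
    simp only [sub_zero, Int.toNat_natCast] at h3
    omega
  set C₀ := C.filter (fun s => s none = t0) with hC₀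
  have hC₀C : ∀ s ∈ C₀, s ∈ C := fun s hs => (Finset.mem_filter.mp hs).1
  have hC₀n : ∀ s ∈ C₀, s none = t0 := fun s hs => (Finset.mem_filter.mp hs).2
  -- the small vectors
  have hsmall : ∀ l : Fin ρ, ∃ v : Option τ → ℤ, qc v ∈ V ∧ v none = 0 ∧
      (∀ l', l' ≠ l → v (some (f l')) = 0) ∧ v (some (f l)) ≠ 0 ∧
      (∀ j, |v j| ≤ |v (some (f l))|) ∧ |v (some (f l))| ≤ ((2 * c1 : ℕ) : ℤ) := by
    intro l
    let Φ : (Option τ → ℤ) → (Fin ρ → ℕ) := fun s l' =>
      if l' = l then (s (some (f l'))).toNat / (2 * c1) else (s (some (f l'))).toNat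
    have hmaps : Set.MapsTo Φ (C₀ : Set (Option τ → ℤ)) (↑(Fintype.piFinset (fun l' : Fin ρ =>
        Finset.range (if l' = l then (S' - 1) / (2 * c1) + 1 else S')))) := by
      intro s hs
      rw [Finset.mem_coe, Fintype.mem_piFinset]
      intro l'
      have h1 := hC s (hC₀C s hs) (some (f l'))
      simp only [side, Option.elim_some] at h1
      rw [Finset.mem_range]
      simp only [Φ]
      split_ifs
      · have h2 : (s (some (f l'))).toNat ≤ S' - 1 := by omega
        exact Nat.lt_succ_of_le (Nat.div_le_div_right h2)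
      · omega
    have hcardlt : (Fintype.piFinset (fun l' : Fin ρ =>
        Finset.range (if l' = l then (S' - 1) / (2 * c1) + 1 else S'))).card < C₀.card := by
      rw [Fintype.card_piFinset]
      simp only [Finset.card_range]
      rw [prod_ite_fin]
      by_contra hcon
      push Not at hcon
      have h1 : c1 * C₀.card ≤ c1 * (((S' - 1) / (2 * c1) + 1) * S' ^ (ρ - 1)) :=
        Nat.mul_le_mul_left _ hcon
      have h2 : S' ^ ρ ≤ c1 * (((S' - 1) / (2 * c1) + 1) * S' ^ (ρ - 1)) := ht0.trans h1
      have hρ1 : 1 ≤ ρ := by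
        have := l.isLt
        omega
      have h3 : S' ^ ρ = S' * S' ^ (ρ - 1) := by
        rw [← pow_succ']
        congr 1
        omega
      rw [h3, ← mul_assoc] at h2
      have h4 := Nat.le_of_mul_le_mul_right h2 (Nat.pow_pos hS'pos)
      have h5 : 2 * c1 * ((S' - 1) / (2 * c1)) ≤ S' - 1 := Nat.mul_div_le _ _
      have h6 : 2 * S' ≤ 2 * c1 * ((S' - 1) / (2 * c1)) + 2 * c1 := by
        calc 2 * S' ≤ 2 * (c1 * ((S' - 1) / (2 * c1) + 1)) := Nat.mul_le_mul_left _ h4
          _ = _ := by ring
      omega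
    obtain ⟨s, hs, t, ht, hne, heq⟩ :=
      Finset.exists_ne_map_eq_of_card_lt_of_maps_to hcardlt hmaps
    have hsC := hC s (hC₀C s hs)
    have htC := hC t (hC₀C t ht)
    have hoff : ∀ l', l' ≠ l → (s - t) (some (f l')) = 0 := by
      intro l' hl'
      have h1 := congrFun heq l'
      simp only [Φ, if_neg hl'] at h1
      have h2 := (hsC (some (f l'))).1
      have h3 := (htC (some (f l'))).1
      rw [Pi.sub_apply]
      omega
    have hnone : (s - t) none = 0 := by
      rw [Pi.sub_apply, hC₀n s hs, hC₀n t ht, sub_self]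
    have hsum : ∑ l', |(s - t) (some (f l'))| = |(s - t) (some (f l))| := by
      apply Finset.sum_eq_single l
      · intro l' _ hl'
        rw [hoff l' hl', abs_zero]
      · intro h
        exact absurd (Finset.mem_univ l) h
    have hbd := hkey (s - t) (hdiff s (hC₀C s hs) t (hC₀C t ht)) hnone
    rw [hsum] at hbd
    refine ⟨s - t, hdiff s (hC₀C s hs) t (hC₀C t ht), hnone, hoff, ?_, hbd, ?_⟩
    · intro h0
      apply hne
      rw [h0, abs_zero] at hbd
      funext j
      have h3 := abs_eq_zero.mp (le_antisymm (hbd j) (abs_nonneg _))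
      rw [Pi.sub_apply] at h3
      omega
    · have h1 := congrFun heq l
      simp only [Φ, if_true] at h1
      have h2 := (hsC (some (f l))).1
      have h3 := (htC (some (f l))).1
      obtain ⟨A, hA⟩ : ∃ A : ℕ, (A : ℤ) = s (some (f l)) := ⟨_, Int.toNat_of_nonneg h2⟩
      obtain ⟨A', hA'⟩ : ∃ A' : ℕ, (A' : ℤ) = t (some (f l)) := ⟨_, Int.toNat_of_nonneg h3⟩
      rw [Pi.sub_apply, ← hA, ← hA']
      rw [← hA, ← hA', Int.toNat_natCast, Int.toNat_natCast] at h1
      have h4 := Nat.div_add_mod A (2 * c1)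
      have h5 := Nat.div_add_mod A' (2 * c1)
      have h6 := Nat.mod_lt A (by omega : 0 < 2 * c1)
      have h7 := Nat.mod_lt A' (by omega : 0 < 2 * c1)
      rw [h1] at h4
      rw [abs_le]
      constructor
      · omega
      · omega
  choose v hvV hvn hvoff hvne hvb hvs using hsmall
  -- the vector `d`
  obtain ⟨s, hs, hsne⟩ : ∃ s ∈ C, s none ≠ s0 none := by
    by_contra hcon
    push Not at hcon
    have h1 : C.card ≤ (Fintype.piFinset (fun _ : Fin ρ => Finset.Ico (0 : ℤ) S')).card := by
      apply Finset.card_le_card_of_injOn (fun s l => s (some (f l)))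
      · intro s hs
        rw [Finset.mem_coe, Fintype.mem_piFinset]
        intro l
        rw [Finset.mem_Ico]
        exact hC s hs (some (f l))
      · intro s hs t ht hst
        apply hzero s hs t ht
        · rw [hcon s hs, hcon t ht]
        · intro l
          exact congrFun hst l
    rw [Fintype.card_piFinset, Finset.prod_const, Int.card_Ico, Finset.card_univ,
      Fintype.card_fin] at h1
    simp only [sub_zero, Int.toNat_natCast] at h1
    have h2 : S * S' ^ ρ ≤ c1 * S' ^ ρ := hcard.trans (Nat.mul_le_mul_left _ h1)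
    have h3 := Nat.le_of_mul_le_mul_right h2 (Nat.pow_pos hS'pos)
    omega
  let n : Fin ρ → ℤ := fun l => (s - s0) (some (f l)) / v l (some (f l))
  let d : Option τ → ℤ := fun j => (s - s0) j - ∑ l, n l * v l j
  have hdn : d none = s none - s0 none := by
    simp only [d, hvn, mul_zero, Finset.sum_const_zero, sub_zero, Pi.sub_apply]
  have hdn0 : d none ≠ 0 := by
    rw [hdn]
    exact sub_ne_zero.mpr hsne
  have hdnS : |d none| ≤ S := by
    rw [hdn]
    have h1 := hC s hs none
    have h2 := hC s0 hs0 none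
    simp only [side, Option.elim_none] at h1 h2
    rw [abs_le]
    constructor <;> omega
  have hdf : ∀ l, |d (some (f l))| ≤ ((2 * c1 : ℕ) : ℤ) := by
    intro l
    have h1 : d (some (f l)) = (s - s0) (some (f l)) % v l (some (f l)) := by
      simp only [d]
      rw [Finset.sum_eq_single l]
      · simp only [n]
        rw [Int.emod_def]
        ring
      · intro l' _ hl'
        rw [hvoff l' l (fun h => hl' h.symm), mul_zero]
      · intro h
        exact absurd (Finset.mem_univ l) h
    rw [h1]
    have h2 := Int.emod_nonneg ((s - s0) (some (f l))) (hvne l)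
    have h3 := Int.emod_lt_abs ((s - s0) (some (f l))) (hvne l)
    rw [abs_of_nonneg h2]
    exact h3.le.trans (hvs l)
  have hqcsum : ∀ (c : Fin ρ → ℤ), qc (fun j => ∑ l, c l * v l j) ∈ V := by
    intro c
    have h1 : qc (fun j => ∑ l, c l * v l j) = ∑ l, (c l : ℚ) • qc (v l) := by
      funext j
      rw [Finset.sum_apply]
      simp only [qc, Pi.smul_apply, smul_eq_mul]
      push_cast
      rfl
    rw [h1]
    exact V.sum_mem (fun l _ => V.smul_mem _ (hvV l))
  have hdV : qc d ∈ V := by
    have h1 : d = (s - s0) - (fun j => ∑ l, n l * v l j) := rfl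
    rw [h1, qc_sub]
    exact V.sub_mem (hdiff0 s hs) (hqcsum n)
  -- the vector `y`
  let y : Option τ → ℤ := fun j => d none * b j - b none * d j
  have hyV : qc y ∈ V := by
    have h1 : qc y = (d none : ℚ) • qc b - (b none : ℚ) • qc d := by
      funext j
      simp only [y, qc, Pi.sub_apply, Pi.smul_apply, smul_eq_mul]
      push_cast
      rfl
    rw [h1]
    exact V.sub_mem (V.smul_mem _ hbV) (V.smul_mem _ hdV)
  have hyn : y none = 0 := by
    simp only [y]
    ring
  have hyf : ∀ l, |y (some (f l))| ≤ ((2 * c1 + g * S : ℕ) : ℤ) * |b none| := by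
    intro l
    simp only [y]
    calc |d none * b (some (f l)) - b none * d (some (f l))|
        ≤ |d none * b (some (f l))| + |b none * d (some (f l))| := abs_sub _ _
      _ = |d none| * |b (some (f l))| + |b none| * |d (some (f l))| := by rw [abs_mul, abs_mul]
      _ ≤ S * (g * |b none|) + |b none| * ((2 * c1 : ℕ) : ℤ) := by
          have h1 := hb (f l)
          have h2 := hdf l
          have h3 := abs_nonneg (b none)
          gcongr
      _ = _ := by push_cast; ring
  have hyj := hkey y hyV hyn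
  have hbpos : 0 < |b none| := abs_pos.mpr hb0
  have hdj : ∀ j, |d j| ≤ ((Fintype.card τ * (2 * c1 + g * S) : ℕ) : ℤ) := by
    intro j
    rcases j with _ | j
    · refine hdnS.trans ?_
      have h2 : S ≤ 2 * c1 + g * S := by nlinarith
      have h1 : S ≤ Fintype.card τ * (2 * c1 + g * S) :=
        h2.trans (Nat.le_mul_of_pos_left _ (by omega))
      exact_mod_cast h1
    · have h1 := hyj (some j)
      have h2 : ∑ l, |y (some (f l))| ≤ (ρ : ℤ) * (((2 * c1 + g * S : ℕ) : ℤ) * |b none|) := by
        calc ∑ l, |y (some (f l))| ≤ ∑ _l : Fin ρ, ((2 * c1 + g * S : ℕ) : ℤ) * |b none| :=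
              Finset.sum_le_sum (fun l _ => hyf l)
          _ = _ := by rw [Finset.sum_const, Finset.card_univ, Fintype.card_fin, nsmul_eq_mul]
      have h3 : |b none| * |d (some j)| ≤ |y (some j)| + |d none| * |b (some j)| := by
        rw [← abs_mul, ← abs_mul]
        have e : b none * d (some j) = d none * b (some j) - y (some j) := by
          simp only [y]
          ring
        rw [e]
        have := abs_sub (d none * b (some j)) (y (some j))
        linarith
      have h4 : |d none| * |b (some j)| ≤ ((2 * c1 + g * S : ℕ) : ℤ) * |b none| := by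
        calc |d none| * |b (some j)| ≤ S * (g * |b none|) := by
              have h5 := hb j
              gcongr
          _ ≤ _ := by
              push_cast
              have h5 : (0 : ℤ) ≤ c1 * |b none| := by positivity
              nlinarith
      have h5 : |b none| * |d (some j)| ≤ |b none| * (((ρ + 1 : ℕ) : ℤ) * ((2 * c1 + g * S : ℕ) : ℤ)) := by
        calc |b none| * |d (some j)| ≤ |y (some j)| + |d none| * |b (some j)| := h3
          _ ≤ (ρ : ℤ) * (((2 * c1 + g * S : ℕ) : ℤ) * |b none|) +
              ((2 * c1 + g * S : ℕ) : ℤ) * |b none| := add_le_add (h1.trans h2) h4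
          _ = _ := by push_cast; ring
      have h6 := le_of_mul_le_mul_left h5 hbpos
      refine h6.trans ?_
      have h7 : (ρ + 1) * (2 * c1 + g * S) ≤ Fintype.card τ * (2 * c1 + g * S) :=
        Nat.mul_le_mul_right _ hρm
      exact_mod_cast h7
  have h2c : ((2 * c1 : ℕ) : ℤ) ≤ ((Fintype.card τ * (2 * c1 + g * S) : ℕ) : ℤ) := by
    have h1 : 2 * c1 ≤ Fintype.card τ * (2 * c1 + g * S) :=
      (Nat.le_add_right _ _).trans (Nat.le_mul_of_pos_left _ (by omega))
    exact_mod_cast h1
  have hDne : ∏ l, v l (some (f l)) ≠ 0 := Finset.prod_ne_zero_iff.mpr (fun l _ => hvne l)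
  have hDabs : |∏ l, v l (some (f l))| ≤ (((2 * c1) ^ ρ : ℕ) : ℤ) := by
    rw [Finset.abs_prod]
    calc ∏ l, |v l (some (f l))| ≤ ∏ _l : Fin ρ, ((2 * c1 : ℕ) : ℤ) :=
          Finset.prod_le_prod (fun _ _ => abs_nonneg _) (fun l _ => hvs l)
      _ = _ := by rw [Finset.prod_const, Finset.card_univ, Fintype.card_fin]; push_cast; rfl
  have herase : ∀ l, v l (some (f l)) * ∏ l' ∈ Finset.univ.erase l, v l' (some (f l')) =
      ∏ l, v l (some (f l)) := fun l =>
    Finset.mul_prod_erase _ (fun l => v l (some (f l))) (Finset.mem_univ l)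
  -- the relation
  let c : Fin ρ → ℤ := fun l => y (some (f l)) * ∏ l' ∈ Finset.univ.erase l, v l' (some (f l'))
  have hrel : ∀ j, (∏ l, v l (some (f l))) * y j = ∑ l, c l * v l j := by
    have hzV : qc (fun j => (∏ l, v l (some (f l))) * y j - ∑ l, c l * v l j) ∈ V := by
      have h1 : qc (fun j => (∏ l, v l (some (f l))) * y j - ∑ l, c l * v l j) =
          (((∏ l, v l (some (f l)) : ℤ)) : ℚ) • qc y - qc (fun j => ∑ l, c l * v l j) := by
        funext j
        simp only [qc, Pi.sub_apply, Pi.smul_apply, smul_eq_mul]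
        push_cast
        rfl
      rw [h1]
      exact V.sub_mem (V.smul_mem _ hyV) (hqcsum c)
    have h1 := hkey _ hzV (by
      simp only [hyn, hvn, mul_zero, Finset.sum_const_zero, sub_zero])
    have h2 : ∑ l, |(∏ l, v l (some (f l))) * y (some (f l)) -
        ∑ l', c l' * v l' (some (f l))| = 0 := by
      apply Finset.sum_eq_zero
      intro l _
      rw [Finset.sum_eq_single l]
      · rw [← herase l]
        simp only [c]
        rw [abs_eq_zero]
        ring
      · intro l' _ hl'
        rw [hvoff l' l (fun h => hl' h.symm), mul_zero]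
      · intro h
        exact absurd (Finset.mem_univ l) h
    intro j
    have h3 : |(∏ l, v l (some (f l))) * y j - ∑ l, c l * v l j| ≤
        ∑ l, |(∏ l, v l (some (f l))) * y (some (f l)) - ∑ l', c l' * v l' (some (f l))| := h1 j
    rw [h2] at h3
    have h4 := abs_eq_zero.mp (le_antisymm h3 (abs_nonneg _))
    linarith
  refine ⟨d, v, d none * ∏ l, v l (some (f l)), b none * ∏ l, v l (some (f l)), c,
    mul_ne_zero hdn0 hDne, mul_ne_zero hb0 hDne, ?_, hvn, hdj, ?_, ?_, ?_, ?_⟩
  · intro j
    rw [← hrel j]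
    simp only [y]
    ring
  · intro l j
    exact (hvb l j).trans ((hvs l).trans h2c)
  · rw [abs_mul]
    push_cast at hDabs ⊢
    have h1 := abs_nonneg (∏ l, v l (some (f l)))
    gcongr
  · rw [abs_mul]
    gcongr
  · intro l
    have h1 : |c l| = |y (some (f l))| * |∏ l' ∈ Finset.univ.erase l, v l' (some (f l'))| := by
      simp only [c]
      rw [abs_mul]
    have h2 : |∏ l' ∈ Finset.univ.erase l, v l' (some (f l'))| ≤ |∏ l, v l (some (f l))| := by
      rw [← herase l, abs_mul]
      have h3 : 1 ≤ |v l (some (f l))| := Int.one_le_abs (hvne l)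
      have h4 := abs_nonneg (∏ l' ∈ Finset.univ.erase l, v l' (some (f l')))
      nlinarith
    rw [h1, abs_mul, ← mul_assoc]
    exact mul_le_mul (hyf l) h2 (abs_nonneg _) (by positivity)

end Run7.h197.BK
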