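import Pool.Agent.Run7.h197.BK.Zest

/-!
Linear forms in logarithms of algebraic numbers, sharp in one height, VII: the obstruction subgroup.
-/

set_option autoImplicit false

namespace Run7.h197.BK

open Finset MvPolynomial Pool.Agent.H364R2 Pool.Agent.H301R2.ZG
open Pool.Agent.Y913.Bk (qc qc_add qc_sub qc_zero qc_nsmul qc_zsmul qc_inj exists_coords
  exists_mul_mem exists_mul_mem_fin card_le_of_affine)

variable {τ : Type} [Fintype τ] {x : Option τ → ℂ} (hx : ∀ j, x j ≠ 0) (b : Option τ → ℤ)

lemma exists_list_lift {α β : Type} (f : α → β) (B : Finset α) [DecidableEq β] (gs : List β)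
    (h : ∀ g ∈ gs, g ∈ B.image f) : ∃ ss : List α, ss.map f = gs ∧ ∀ s ∈ ss, s ∈ B := by
  induction gs with
  | nil => exact ⟨[], rfl, by simp⟩
  | cons g gs ih =>
    obtain ⟨ss, h1, h2⟩ := ih (fun g' hg' => h g' (List.mem_cons_of_mem _ hg'))
    obtain ⟨s, hs, rfl⟩ := Finset.mem_image.mp (h g List.mem_cons_self)
    refine ⟨s :: ss, by rw [List.map_cons, h1], ?_⟩
    intro t ht
    rcases List.mem_cons.mp ht with rfl | ht
    · exact hs
    · exact h2 t ht

/-- the sides of the box -/
def side {τ : Type} (S S' : ℕ) : Option τ → ℕ := fun j => j.elim S (fun _ => S')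

omit [Fintype τ] in
lemma list_sum_bounds {D : Option τ → ℕ} (ss : List (Option τ → ℤ))
    (h : ∀ s ∈ ss, ∀ j, 0 ≤ s j ∧ s j < D j) (j : Option τ) :
    0 ≤ ss.sum j ∧ ss.sum j ≤ ss.length * ((D j : ℤ) - 1) := by
  induction ss with
  | nil => simp
  | cons s ss ih =>
    have h1 := ih (fun t ht => h t (List.mem_cons_of_mem _ ht))
    have h2 := h s List.mem_cons_self j
    rw [List.sum_cons, Pi.add_apply, List.length_cons]
    push_cast
    constructor
    · linarith [h1.1, h2.1]
    · have : s j ≤ (D j : ℤ) - 1 := by omega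
      linarith [h1.2]

include hx in
theorem obstruct [DecidableEq τ] {L S S' : ℕ} (hL : 1 ≤ L) (hS : 1 ≤ S) (hSS' : S ≤ S')
    (G : ((τ → Fin (L * S')) × Fin L) → ℤ) (hG : G ≠ 0) (hb0 : b none ≠ 0)
    (hy : ∀ N : ℕ, 1 ≤ N → (∏ j, x j ^ (b j)) ^ N ≠ 1)
    (hvan : ∀ s : Option τ → ℕ, (∀ j, s j ≤ (Fintype.card τ + 1) * side S S' j) →
      ∑ i, (G i : ℂ) * ((∏ j, bp (i.1 j : ℕ) (uu b (fun j => (s j : ℤ)) j : ℂ)) *
        (∏ j, (x j) ^ s j) ^ (i.2 : ℕ)) = 0)
    (hSb : 2 ^ ((Fintype.card τ + 2) * (Fintype.card τ + 1)) * L ^ (Fintype.card τ + 1) < S) :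
    ∃ (C : Finset (Option τ → ℤ)) (s0 : Option τ → ℤ) (ρ : ℕ), s0 ∈ C ∧
      (∀ s ∈ C, ∀ j, 0 ≤ s j ∧ s j < side S S' j) ∧
      qc b ∈ Submodule.span ℚ (qc '' ((C.image (fun s => s - s0) : Finset (Option τ → ℤ)) :
        Set (Option τ → ℤ))) ∧
      ρ + 1 = Module.finrank ℚ (Submodule.span ℚ (qc '' ((C.image (fun s => s - s0) :
        Finset (Option τ → ℤ)) : Set (Option τ → ℤ)))) ∧
      ρ + 1 ≤ Fintype.card τ ∧
      S * S' ^ ρ ≤ 2 ^ ((Fintype.card τ + 2) * (Fintype.card τ + 1)) *
        L ^ (Fintype.card τ + 1) * C.card := by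
  classical
  have hS'1 : 1 ≤ S' := hS.trans hSS'
  have hQ1 : 1 ≤ L * S' := Nat.mul_pos hL hS'1
  set B : Finset (Option τ → ℤ) :=
    Fintype.piFinset (fun j => Finset.Ico (0 : ℤ) (side S S' j)) with hB
  have hBmem : ∀ s, s ∈ B ↔ ∀ j, 0 ≤ s j ∧ s j < side S S' j := by
    intro s
    rw [hB, Fintype.mem_piFinset]
    simp only [Finset.mem_Ico]
  have hBcard : B.card = S * S' ^ Fintype.card τ := by
    rw [hB, Fintype.card_piFinset]
    simp only [Int.card_Ico, sub_zero, Int.toNat_natCast]
    rw [Fintype.prod_option]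
    simp only [side, Option.elim_none, Option.elim_some]
    rw [Finset.prod_const, Finset.card_univ]
  obtain ⟨P, hP, hPbot, hone, hstab, hhom, hbound⟩ :=
    zero_estimate_grp (ad (τ := τ)) (l := 0) (fun k => k.elim0) (B.image (zt x b)) 0 (polyF G)
      (fun j : Option τ => j.elim L (fun _ => L * S'))
      (by
        intro j
        rcases j with _ | k
        · exact hL
        · exact hQ1)
      (by
        intro g hg
        obtain ⟨s, _, rfl⟩ := Finset.mem_image.mp hg
        exact isG_zt hx b s)
      (polyF_ne_zero hG) (polyF_mem_box G) (by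
        intro ks gs hks hgs hmem
        have h0 : ks = [] := by
          cases ks with
          | nil => rfl
          | cons k _ => exact k.elim0
        subst h0
        simp only [derIter]
        obtain ⟨ss, hss, hssB⟩ := exists_list_lift (zt x b) B gs hmem
        rw [← hss, prodG_zt hx, eval_polyF]
        have hlen : ss.length ≤ Fintype.card τ + 1 := by
          rw [← hss, List.length_map, Fintype.card_option] at hgs
          exact hgs
        have hbd := list_sum_bounds ss (D := side S S') (fun s hs => (hBmem s).mp (hssB s hs))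
        have hside1 : ∀ j : Option τ, 1 ≤ side S S' j := by
          intro j
          rcases j with _ | k
          · exact hS
          · exact hS'1
        have h1 := hvan (fun j => (ss.sum j).toNat) (by
          intro j
          have h2 := hbd j
          have h3 : (ss.length : ℤ) * ((side S S' j : ℤ) - 1) ≤
              ((Fintype.card τ + 1 : ℕ) : ℤ) * (side S S' j : ℤ) := by
            apply mul_le_mul
            · exact_mod_cast hlen
            · linarith
            · have : (1 : ℤ) ≤ side S S' j := by exact_mod_cast hside1 j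
              linarith
            · positivity
          have h4 : ss.sum j ≤ (((Fintype.card τ + 1) * side S S' j : ℕ) : ℤ) := by
            push_cast at h3 ⊢
            linarith
          show (ss.sum j).toNat ≤ _
          omega)
        have h2 : (fun j => (((ss.sum j).toNat : ℕ) : ℤ)) = ss.sum := by
          funext j
          exact Int.toNat_of_nonneg (hbd j).1
        rw [h2] at h1
        rw [← h1]
        apply Finset.sum_congr rfl
        intro i _
        congr 2
        rw [zt_none]
        congr 1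
        apply Finset.prod_congr rfl
        intro j _
        rw [← zpow_natCast, Int.toNat_of_nonneg (hbd j).1])
  let f : (Option τ → ℤ) → Ideal (MvPolynomial (Option τ) ℂ) := fun s => trI ad (zt x b s) P
  -- the number of classes
  have hclass : ∀ E : Finset (Option τ), Indep P (E : Set (Option τ)) →
      (B.image f).card ≤ 2 ^ ((Fintype.card τ + 2) * (Fintype.card τ + 1)) *
        ∏ j ∈ Finset.univ \ E, (j.elim L (fun _ => L * S') : ℕ) := by
    intro E hE
    have hsec : ∀ J ∈ B.image f, ∃ s ∈ B, f s = J := fun J hJ => by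
      obtain ⟨s, hs, h⟩ := Finset.mem_image.mp hJ
      exact ⟨s, hs, h⟩
    choose! sec hsecB hsecf using hsec
    have hinj1 : Set.InjOn (fun J => zt x b (sec J)) (B.image f : Set _) := by
      intro J hJ J' hJ' h
      simp only at h
      rw [← hsecf J hJ, ← hsecf J' hJ']
      show trI ad (zt x b (sec J)) P = trI ad (zt x b (sec J')) P
      rw [h]
    have h1 := hbound E hE ((B.image f).image (fun J => zt x b (sec J))) (by
      intro g hg
      obtain ⟨J, hJ, rfl⟩ := Finset.mem_image.mp hg
      exact Finset.mem_image_of_mem _ (hsecB J hJ)) (by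
      intro g hg g' hg' h
      obtain ⟨J, hJ, rfl⟩ := Finset.mem_image.mp hg
      obtain ⟨J', hJ', rfl⟩ := Finset.mem_image.mp hg'
      have h2 : f (sec J) = f (sec J') := h
      rw [hsecf J hJ, hsecf J' hJ'] at h2
      rw [h2]) 0 (fun k => k.elim0) (fun k => k.elim0) (by
      intro c _
      funext k
      exact k.elim0)
    rw [Finset.card_image_of_injOn hinj1, pow_zero, mul_one, Fintype.card_option] at h1
    exact h1
  -- the largest class
  have hBne : B.Nonempty := by
    rw [← Finset.card_pos, hBcard]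
    exact Nat.mul_pos (by omega) (Nat.pow_pos (by omega))
  obtain ⟨s0, hs0, hmax⟩ := Finset.exists_max_image B
    (fun s => (B.filter (fun t => f t = f s)).card) hBne
  set C : Finset (Option τ → ℤ) := B.filter (fun t => f t = f s0) with hC
  have hBC : B.card ≤ (B.image f).card * C.card := by
    rw [Finset.card_eq_sum_card_image f B]
    calc ∑ J ∈ B.image f, (B.filter (fun t => f t = J)).card ≤ ∑ _J ∈ B.image f, C.card := by
          apply Finset.sum_le_sum
          intro J hJ
          obtain ⟨s, hs, rfl⟩ := Finset.mem_image.mp hJ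
          exact hmax s hs
      _ = _ := by rw [Finset.sum_const, smul_eq_mul]
  have hs0C : s0 ∈ C := Finset.mem_filter.mpr ⟨hs0, rfl⟩
  have hCB : ∀ s ∈ C, ∀ j, 0 ≤ s j ∧ s j < side S S' j := fun s hs =>
    (hBmem s).mp (Finset.mem_filter.mp hs).1
  set V := Submodule.span ℚ (qc '' ((C.image (fun s => s - s0) : Finset (Option τ → ℤ)) :
    Set (Option τ → ℤ))) with hV
  have hVK : V ≤ Submodule.span ℚ (qc '' (Kst hx b P : Set (Option τ → ℤ))) := by
    apply Submodule.span_mono
    apply Set.image_mono
    intro v hv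
    rw [Finset.mem_coe, Finset.mem_image] at hv
    obtain ⟨s, hs, rfl⟩ := hv
    have h1 : trI ad (zt x b s) P = trI ad (zt x b s0) P := (Finset.mem_filter.mp hs).2
    show trI ad (zt x b (s - s0)) P = P
    have e1 : s - s0 = -s0 + s := by abel
    rw [e1, ← gmul_zt hx, ← trI_trI, h1, trI_trI, gmul_zt hx, neg_add_cancel, zt_zero,
      trI_gone]
  have hCcard : C.card ≤ S' ^ Module.finrank ℚ V := by
    apply card_le_of_affine S' C s0 V
    intro s hs
    refine ⟨fun j => ?_, ?_⟩
    · have h1 := hCB s hs j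
      refine ⟨h1.1, lt_of_lt_of_le h1.2 ?_⟩
      have h2 : side S S' j ≤ S' := by
        rcases j with _ | k
        · exact hSS'
        · exact le_rfl
      exact_mod_cast h2
    · apply Submodule.subset_span
      exact Set.mem_image_of_mem _ (Finset.mem_coe.mpr (Finset.mem_image_of_mem _ hs))
  have hr1 : Module.finrank ℚ V ≤ Fintype.card τ + 1 := by
    have := Submodule.finrank_le V
    rwa [Module.finrank_fintype_fun_eq_card, Fintype.card_option] at this
  have hr2 : Module.finrank ℚ V ≤ Fintype.card τ := by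
    by_contra hcon
    apply hPbot
    apply eq_bot_of_full hx b hone hb0 hy V hVK
    rw [Fintype.card_option]
    omega
  have hbV : qc b ∈ V := by
    by_contra hbV
    obtain ⟨I, hI, hIind⟩ := indep_of_notMem hx b hone hb0 V hVK hbV
    have h1 := hclass _ hIind
    have h2 : ∏ j ∈ Finset.univ \ (I.image some : Finset (Option τ)),
        (j.elim L (fun _ => L * S') : ℕ) =
        L * (L * S') ^ (Fintype.card τ - Module.finrank ℚ V) := by
      have e1 : Finset.univ \ (I.image some : Finset (Option τ)) =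
          insert none ((Finset.univ \ I).image some) := by
        ext j
        rcases j with _ | k
        · simp
        · simp
      rw [e1, Finset.prod_insert (by simp), Option.elim_none]
      congr 1
      rw [Finset.prod_image (fun a _ a' _ h => Option.some_injective _ h)]
      simp only [Option.elim_some]
      rw [Finset.prod_const, Finset.card_sdiff_of_subset (Finset.subset_univ I), Finset.card_univ, hI]
    rw [h2] at h1
    obtain ⟨r, hr⟩ : ∃ r, r = Module.finrank ℚ V := ⟨_, rfl⟩
    obtain ⟨m, hm⟩ : ∃ m, m = Fintype.card τ := ⟨_, rfl⟩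
    obtain ⟨c0, hc0⟩ : ∃ c0, c0 = 2 ^ ((Fintype.card τ + 2) * (Fintype.card τ + 1)) := ⟨_, rfl⟩
    rw [← hc0] at h1 hSb
    rw [← hr, ← hm] at h1 hr2
    rw [← hr] at hCcard
    rw [← hm] at hBcard hSb
    have h4 : S * S' ^ m ≤ (c0 * L ^ (m + 1)) * S' ^ m := by
      rw [← hBcard]
      calc B.card ≤ (B.image f).card * C.card := hBC
        _ ≤ (c0 * (L * (L * S') ^ (m - r))) * S' ^ r := Nat.mul_le_mul h1 hCcard
        _ = (c0 * L ^ (m - r + 1)) * (S' ^ (m - r) * S' ^ r) := by rw [mul_pow]; ring
        _ = (c0 * L ^ (m - r + 1)) * S' ^ m := by rw [← pow_add, Nat.sub_add_cancel hr2]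
        _ ≤ (c0 * L ^ (m + 1)) * S' ^ m := by
            apply Nat.mul_le_mul_right
            apply Nat.mul_le_mul_left
            exact Nat.pow_le_pow_right hL (by omega)
    have h5 : 0 < S' ^ m := Nat.pow_pos (by omega)
    have h6 := Nat.le_of_mul_le_mul_right h4 h5
    omega
  obtain ⟨I, hI, hIind⟩ := indep_of_mem hx b hone hb0 hy V hVK hbV
  refine ⟨C, s0, I.card, hs0C, hCB, hbV, hI, by omega, ?_⟩
  have h1 := hclass _ hIind
  have h2 : ∏ j ∈ Finset.univ \ (insert none (I.image some) : Finset (Option τ)),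
      (j.elim L (fun _ => L * S') : ℕ) = (L * S') ^ (Fintype.card τ - I.card) := by
    have e1 : Finset.univ \ (insert none (I.image some) : Finset (Option τ)) =
        (Finset.univ \ I).image some := by
      ext j
      rcases j with _ | k
      · simp
      · simp
    rw [e1, Finset.prod_image (fun a _ a' _ h => Option.some_injective _ h)]
    simp only [Option.elim_some]
    rw [Finset.prod_const, Finset.card_sdiff_of_subset (Finset.subset_univ I), Finset.card_univ]
  rw [h2] at h1
  obtain ⟨ρ, hρ⟩ : ∃ ρ, ρ = I.card := ⟨_, rfl⟩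
  obtain ⟨m, hm⟩ : ∃ m, m = Fintype.card τ := ⟨_, rfl⟩
  obtain ⟨c0, hc0⟩ : ∃ c0, c0 = 2 ^ ((Fintype.card τ + 2) * (Fintype.card τ + 1)) := ⟨_, rfl⟩
  rw [← hρ] at hI h1 ⊢
  rw [← hc0] at h1 ⊢
  rw [← hm] at h1 hr2 hBcard ⊢
  have hρm : ρ ≤ m := by omega
  have h4 : (S * S' ^ ρ) * S' ^ (m - ρ) ≤ (c0 * L ^ (m + 1) * C.card) * S' ^ (m - ρ) := by
    calc (S * S' ^ ρ) * S' ^ (m - ρ) = S * (S' ^ (m - ρ) * S' ^ ρ) := by ring
      _ = B.card := by rw [← pow_add, Nat.sub_add_cancel hρm, hBcard]
      _ ≤ (B.image f).card * C.card := hBC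
      _ ≤ (c0 * (L * S') ^ (m - ρ)) * C.card := Nat.mul_le_mul_right _ h1
      _ = (c0 * L ^ (m - ρ) * C.card) * S' ^ (m - ρ) := by rw [mul_pow]; ring
      _ ≤ (c0 * L ^ (m + 1) * C.card) * S' ^ (m - ρ) := by
          apply Nat.mul_le_mul_right
          apply Nat.mul_le_mul_right
          apply Nat.mul_le_mul_left
          exact Nat.pow_le_pow_right hL (by omega)
  exact Nat.le_of_mul_le_mul_right h4 (Nat.pow_pos (by omega))

end Run7.h197.BK
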