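import Pool.Agent.Run7.h197.BK.Arith

/-!
Linear forms in logarithms of algebraic numbers, sharp in one height, IV: the auxiliary polynomial
vanishes.
-/

set_option autoImplicit false

namespace Run7.h197.BK

open Finset NumberField

/-- the linear form in logarithms -/
noncomputable def Lam {σ : Type} [Fintype σ] (ℓ : σ → ℂ) (b : σ → ℤ) : ℂ :=
  ∑ j, (b j : ℂ) * ℓ j

/-- the additive coordinates of the points -/
def uu {τ : Type} (b : Option τ → ℤ) (s : Option τ → ℤ) (i : τ) : ℤ :=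
  b none * s (some i) - b (some i) * s none

lemma norm_prod_sub_prod_le {τ : Type} (s : Finset τ) (a b : τ → ℂ) (M ε : ℝ) (hM : 1 ≤ M)
    (ha : ∀ j ∈ s, ‖a j‖ ≤ M) (hb : ∀ j ∈ s, ‖b j‖ ≤ M) (hab : ∀ j ∈ s, ‖a j - b j‖ ≤ ε)
    (hε : 0 ≤ ε) : ‖∏ j ∈ s, a j - ∏ j ∈ s, b j‖ ≤ s.card * M ^ s.card * ε := by
  classical
  induction s using Finset.induction_on with
  | empty => simp
  | insert j s hj ih =>
    have h1 := ih (fun i hi => ha i (Finset.mem_insert_of_mem hi))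
      (fun i hi => hb i (Finset.mem_insert_of_mem hi))
      (fun i hi => hab i (Finset.mem_insert_of_mem hi))
    rw [Finset.prod_insert hj, Finset.prod_insert hj, Finset.card_insert_of_notMem hj]
    have h2 : a j * ∏ i ∈ s, a i - b j * ∏ i ∈ s, b i =
        (a j - b j) * ∏ i ∈ s, a i + b j * (∏ i ∈ s, a i - ∏ i ∈ s, b i) := by ring
    have h3 : ‖∏ i ∈ s, a i‖ ≤ M ^ s.card := by
      rw [norm_prod]
      calc ∏ i ∈ s, ‖a i‖ ≤ ∏ _i ∈ s, M :=
            Finset.prod_le_prod (fun _ _ => norm_nonneg _)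
              (fun i hi => ha i (Finset.mem_insert_of_mem hi))
        _ = M ^ s.card := by rw [Finset.prod_const]
    have h4 := hab j (Finset.mem_insert_self _ _)
    have h5 := hb j (Finset.mem_insert_self _ _)
    have hMs : 0 ≤ M ^ s.card := by positivity
    rw [h2]
    calc ‖(a j - b j) * ∏ i ∈ s, a i + b j * (∏ i ∈ s, a i - ∏ i ∈ s, b i)‖
        ≤ ‖a j - b j‖ * ‖∏ i ∈ s, a i‖ + ‖b j‖ * ‖∏ i ∈ s, a i - ∏ i ∈ s, b i‖ := by
          refine (norm_add_le _ _).trans ?_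
          rw [norm_mul, norm_mul]
      _ ≤ ε * M ^ s.card + M * (s.card * M ^ s.card * ε) := by
          apply add_le_add
          · exact mul_le_mul h4 h3 (norm_nonneg _) hε
          · exact mul_le_mul h5 h1 (norm_nonneg _) (by linarith)
      _ ≤ M * (M ^ s.card * ε) + M * (s.card * M ^ s.card * ε) := by
          have : 0 ≤ M ^ s.card * ε := by positivity
          nlinarith
      _ = ((s.card + 1 : ℕ) : ℝ) * M ^ (s.card + 1) * ε := by
          push_cast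
          ring

variable {K : Type} [Field K] [NumberField K]

theorem vanish {τ : Type} [Fintype τ] [DecidableEq τ] {Q L d : ℕ} (hL : 1 ≤ L)
    (σ : K →+* ℂ) (a c : Option τ → 𝓞 K) (hc0 : ∀ j, c j ≠ 0)
    (ℓ : Option τ → ℂ) (hℓ : ∀ j, Complex.exp (ℓ j) = σ (a j : K) / σ (c j : K))
    (b : Option τ → ℤ) (hb0 : b none ≠ 0)
    (T : Option τ → ℕ) (Z : Option τ → ℝ) (hZ : ∀ j, 1 ≤ Z j)
    (ha : ∀ (φ : K →+* ℂ) j, ‖φ (a j : K)‖ ≤ Z j)
    (hc : ∀ (φ : K →+* ℂ) j, ‖φ (c j : K)‖ ≤ Z j)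
    (U X BB : ℝ) (hX0 : 0 ≤ X) (hdX : 8 * X ≤ d)
    (hUX : ∀ j, L * ‖ℓ (some j) / (b none : ℂ)‖ * U ≤ X)
    (hBB : ∀ l < Q, ∏ t ∈ range l, ((U + t) / ((t : ℝ) + 1)) ≤ BB) (hBB1 : 1 ≤ BB)
    (Hg : ℝ) (G : ((τ → Fin Q) × Fin L) → ℤ) (hHg : ∀ i, |(G i : ℝ)| ≤ Hg) (hHg0 : 0 ≤ Hg)
    (ε : ℝ)
    (hGs : ∀ u : τ → ℂ, (∀ j, ‖u j‖ ≤ U) →
        ‖∑ i, (G i : ℂ) * ∏ j, (bp (i.1 j : ℕ) (u j) *
          Tr d ((i.2 : ℕ) * (ℓ (some j) / (b none : ℂ)) * u j))‖ ≤ ε)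
    (W : ℝ) (hW : ∏ j, Z j ^ (T j * L) ≤ W) (A : ℝ)
    (hA : (BB * Real.exp X) ^ Fintype.card τ ≤ A) (M : ℝ)
    (hM : ((Q ^ Fintype.card τ * L : ℕ) : ℝ) * (Hg * (BB ^ Fintype.card τ * W)) ≤ M)
    (h1 : ε * (4 * W * M ^ (Module.finrank ℚ K - 1)) ≤ 1)
    (h2 : ((Q ^ Fintype.card τ * L : ℕ) : ℝ) *
      (Hg * (Fintype.card τ * A * (BB * (2 * (1 / 2) ^ d)))) *
      (4 * W * M ^ (Module.finrank ℚ K - 1)) ≤ 1)
    (h3 : ((Q ^ Fintype.card τ * L : ℕ) : ℝ) *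
      (Hg * (BB ^ Fintype.card τ * (2 * (L * (T none * ‖Lam ℓ b‖))))) *
      (4 * W * M ^ (Module.finrank ℚ K - 1)) ≤ 1)
    (h3' : L * (T none * ‖Lam ℓ b‖) ≤ 1)
    (s : Option τ → ℕ) (hs : ∀ j, s j ≤ T j)
    (hub : ∀ j, ‖(uu b (fun j => (s j : ℤ)) j : ℂ)‖ ≤ U) :
    ∑ i, (G i : ℂ) * ((∏ j, bp (i.1 j : ℕ) (uu b (fun j => (s j : ℤ)) j : ℂ)) *
        (∏ j, (σ (a j : K) / σ (c j : K)) ^ s j) ^ (i.2 : ℕ)) = 0 := by
  classical
  set β : ℂ := (b none : ℂ) with hβ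
  have hβ0 : β ≠ 0 := by rw [hβ]; exact_mod_cast hb0
  have hβ1 : 1 ≤ ‖β‖ := by
    rw [hβ, Complex.norm_intCast, ← Int.cast_abs]
    exact_mod_cast Int.one_le_abs hb0
  have hβpos : 0 < ‖β‖ := by linarith
  set u : τ → ℂ := fun j => (uu b (fun j => (s j : ℤ)) j : ℂ) with hu
  set E : ℂ := ∏ j, (σ (a j : K) / σ (c j : K)) ^ s j with hE
  set C : ℂ := ∏ j, (σ (c j : K)) ^ (s j * (L - 1)) with hC
  have hcne : ∀ j, σ (c j : K) ≠ 0 := by
    intro j
    rw [map_ne_zero]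
    exact RingOfIntegers.coe_ne_zero_iff.mpr (hc0 j)
  have hCne : C ≠ 0 := Finset.prod_ne_zero_iff.mpr (fun j _ => pow_ne_zero _ (hcne j))
  have hEexp : E = Complex.exp (∑ j, (s j : ℂ) * ℓ j) := by
    rw [Complex.exp_sum, hE]
    apply Finset.prod_congr rfl
    intro j _
    rw [← hℓ j, ← Complex.exp_nat_mul]
  -- the key identity
  have hkey : ∑ j, ℓ (some j) / β * u j = ∑ j, (s j : ℂ) * ℓ j - (s none : ℂ) * Lam ℓ b / β := by
    unfold Lam
    rw [Fintype.sum_option, Fintype.sum_option, ← hβ]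
    have e1 : ∀ j : τ, ℓ (some j) / β * u j = (s (some j) : ℂ) * ℓ (some j) -
        (s none : ℂ) / β * ((b (some j) : ℂ) * ℓ (some j)) := by
      intro j
      simp only [hu, uu]
      push_cast
      rw [← hβ]
      field_simp
    rw [Finset.sum_congr rfl (fun j _ => e1 j), Finset.sum_sub_distrib, ← Finset.mul_sum]
    field_simp
    ring
  have hCEk : ∀ k : ℕ, k < L → ‖C * E ^ k‖ ≤ W := by
    intro k hk
    have e1 : C * E ^ k = ∏ j, (σ (a j : K) ^ (s j * k) * σ (c j : K) ^ (s j * (L - 1 - k))) := by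
      rw [hC, hE, ← Finset.prod_pow, ← Finset.prod_mul_distrib]
      apply Finset.prod_congr rfl
      intro j _
      have hy0 := hcne j
      have h2 : s j * (L - 1) = s j * k + s j * (L - 1 - k) := by
        rw [← Nat.mul_add]
        congr 1
        omega
      rw [h2, pow_add, div_pow, div_pow, ← pow_mul, ← pow_mul]
      field_simp
    rw [e1, norm_prod]
    refine le_trans (Finset.prod_le_prod (fun _ _ => norm_nonneg _) (fun j _ => ?_)) hW
    rw [norm_mul, norm_pow, norm_pow]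
    calc ‖σ (a j : K)‖ ^ (s j * k) * ‖σ (c j : K)‖ ^ (s j * (L - 1 - k))
        ≤ Z j ^ (s j * k) * Z j ^ (s j * (L - 1 - k)) := by
          have := ha σ j
          have := hc σ j
          have := hZ j
          gcongr
      _ = Z j ^ (s j * k + s j * (L - 1 - k)) := by rw [← pow_add]
      _ ≤ Z j ^ (T j * L) := by
          apply pow_le_pow_right₀ (hZ j)
          rw [← Nat.mul_add]
          apply Nat.mul_le_mul (hs j)
          omega
  have hCW : ‖C‖ ≤ W := by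
    have := hCEk 0 (by omega)
    simpa using this
  have hWpos : 0 < W := lt_of_lt_of_le (norm_pos_iff.mpr hCne) hCW
  have hcI : (Finset.univ : Finset ((τ → Fin Q) × Fin L)).card = Q ^ Fintype.card τ * L := by
    rw [Finset.card_univ, Fintype.card_prod, Fintype.card_fun, Fintype.card_fin, Fintype.card_fin]
  have hGn : ∀ i, ‖(G i : ℂ)‖ ≤ Hg := by
    intro i
    rw [Complex.norm_intCast]
    exact hHg i
  -- bounds for the arguments
  have harg : ∀ (i : (τ → Fin Q) × Fin L) (j : τ), ‖((i.2 : ℕ) : ℂ) * (ℓ (some j) / β) * u j‖ ≤ X := by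
    intro i j
    refine le_trans ?_ (hUX j)
    rw [norm_mul, norm_mul, Complex.norm_natCast]
    have e1 : ((i.2 : ℕ) : ℝ) ≤ L := by exact_mod_cast i.2.isLt.le
    have e2 := hub j
    gcongr
  have hbpu : ∀ (i : (τ → Fin Q) × Fin L) (j : τ), ‖bp (i.1 j : ℕ) (u j)‖ ≤ BB := by
    intro i j
    exact (norm_bp_le U _ _ (hub j)).trans (hBB _ (i.1 j).isLt)
  have hM1 : 1 ≤ BB * Real.exp X := by
    have e2 : 1 ≤ Real.exp X := Real.one_le_exp hX0
    nlinarith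
  have hBB0 : 0 ≤ BB := by linarith
  have hd1 : (0 : ℝ) ≤ BB * (2 * (1 / 2) ^ d) := by positivity
  -- first comparison
  have hc1 : ∀ i : (τ → Fin Q) × Fin L,
      ‖∏ j, (bp (i.1 j : ℕ) (u j) * Complex.exp ((i.2 : ℕ) * (ℓ (some j) / β) * u j)) -
        ∏ j, (bp (i.1 j : ℕ) (u j) * Tr d ((i.2 : ℕ) * (ℓ (some j) / β) * u j))‖ ≤
      Fintype.card τ * A * (BB * (2 * (1 / 2) ^ d)) := by
    intro i
    have e1 := norm_prod_sub_prod_le (Finset.univ : Finset τ)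
      (fun j => bp (i.1 j : ℕ) (u j) * Complex.exp ((i.2 : ℕ) * (ℓ (some j) / β) * u j))
      (fun j => bp (i.1 j : ℕ) (u j) * Tr d ((i.2 : ℕ) * (ℓ (some j) / β) * u j))
      (BB * Real.exp X) (BB * (2 * (1 / 2) ^ d)) hM1
      (by
        intro j _
        rw [norm_mul]
        refine mul_le_mul (hbpu i j) ?_ (norm_nonneg _) hBB0
        exact (Complex.norm_exp_le_exp_norm _).trans (Real.exp_le_exp.mpr (harg i j)))
      (by
        intro j _
        rw [norm_mul]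
        exact mul_le_mul (hbpu i j) ((norm_Tr_le _ _).trans (Real.exp_le_exp.mpr (harg i j)))
          (norm_nonneg _) hBB0)
      (by
        intro j _
        rw [← mul_sub, norm_mul]
        apply mul_le_mul (hbpu i j) _ (norm_nonneg _) hBB0
        apply norm_exp_sub_Tr
        have := harg i j
        linarith)
      hd1
    rw [Finset.card_univ] at e1
    refine e1.trans ?_
    gcongr
  -- second comparison
  have hc2 : ∀ i : (τ → Fin Q) × Fin L,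
      ‖C * ((∏ j, bp (i.1 j : ℕ) (u j)) * E ^ (i.2 : ℕ)) -
        C * ∏ j, (bp (i.1 j : ℕ) (u j) * Complex.exp ((i.2 : ℕ) * (ℓ (some j) / β) * u j))‖ ≤
      BB ^ Fintype.card τ * W * (2 * (L * (T none * ‖Lam ℓ b‖))) := by
    intro i
    have e1 : ∏ j, (bp (i.1 j : ℕ) (u j) * Complex.exp ((i.2 : ℕ) * (ℓ (some j) / β) * u j)) =
        (∏ j, bp (i.1 j : ℕ) (u j)) * (E ^ (i.2 : ℕ) *
          Complex.exp (-((i.2 : ℕ) * ((s none : ℂ) * Lam ℓ b / β)))) := by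
      rw [Finset.prod_mul_distrib, ← Complex.exp_sum]
      congr 1
      have e2 : ∑ j, ((i.2 : ℕ) : ℂ) * (ℓ (some j) / β) * u j =
          ((i.2 : ℕ) : ℂ) * (∑ j, (s j : ℂ) * ℓ j) +
            (-((i.2 : ℕ) * ((s none : ℂ) * Lam ℓ b / β))) := by
        have e3 : ∑ j, ((i.2 : ℕ) : ℂ) * (ℓ (some j) / β) * u j =
            ((i.2 : ℕ) : ℂ) * ∑ j, ℓ (some j) / β * u j := by
          rw [Finset.mul_sum]
          apply Finset.sum_congr rfl
          intro j _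
          ring
        rw [e3, hkey]
        ring
      rw [e2, Complex.exp_add, Complex.exp_nat_mul, ← hEexp]
    rw [e1]
    have e3 : C * ((∏ j, bp (i.1 j : ℕ) (u j)) * E ^ (i.2 : ℕ)) - C * ((∏ j, bp (i.1 j : ℕ) (u j)) *
        (E ^ (i.2 : ℕ) * Complex.exp (-((i.2 : ℕ) * ((s none : ℂ) * Lam ℓ b / β))))) =
        -((∏ j, bp (i.1 j : ℕ) (u j)) * (C * E ^ (i.2 : ℕ)) *
          (Complex.exp (-((i.2 : ℕ) * ((s none : ℂ) * Lam ℓ b / β))) - 1)) := by ring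
    rw [e3, norm_neg, norm_mul, norm_mul]
    have e4 : ‖∏ j, bp (i.1 j : ℕ) (u j)‖ ≤ BB ^ Fintype.card τ := by
      rw [norm_prod, ← Finset.card_univ, ← Finset.prod_const]
      exact Finset.prod_le_prod (fun _ _ => norm_nonneg _) (fun j _ => hbpu i j)
    have e5 : ‖C * E ^ (i.2 : ℕ)‖ ≤ W := hCEk _ i.2.isLt
    have e6 : ‖(-(((i.2 : ℕ) : ℂ) * ((s none : ℂ) * Lam ℓ b / β)))‖ ≤
        L * (T none * ‖Lam ℓ b‖) := by
      rw [norm_neg, norm_mul, norm_div, norm_mul, Complex.norm_natCast, Complex.norm_natCast]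
      have e7 : ((i.2 : ℕ) : ℝ) ≤ L := by exact_mod_cast i.2.isLt.le
      have e8 : ((s none : ℕ) : ℝ) ≤ T none := by exact_mod_cast hs none
      have e9 : (s none : ℝ) * ‖Lam ℓ b‖ / ‖β‖ ≤ T none * ‖Lam ℓ b‖ := by
        rw [div_le_iff₀ hβpos]
        have h4 := norm_nonneg (Lam ℓ b)
        have h5 : 0 ≤ T none * ‖Lam ℓ b‖ := by positivity
        nlinarith
      exact mul_le_mul e7 e9 (by positivity) (Nat.cast_nonneg _)
    have e7 : ‖Complex.exp (-(((i.2 : ℕ) : ℂ) * ((s none : ℂ) * Lam ℓ b / β))) - 1‖ ≤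
        2 * (L * (T none * ‖Lam ℓ b‖)) := by
      refine (Complex.norm_exp_sub_one_le (e6.trans h3')).trans ?_
      linarith
    have := norm_nonneg (Lam ℓ b)
    exact mul_le_mul (mul_le_mul e4 e5 (norm_nonneg _) (by positivity)) e7 (norm_nonneg _)
      (by positivity)
  -- total
  have hsum1 : ‖∑ i, (G i : ℂ) * ∏ j, (bp (i.1 j : ℕ) (u j) *
      Complex.exp ((i.2 : ℕ) * (ℓ (some j) / β) * u j)) -
      ∑ i, (G i : ℂ) * ∏ j, (bp (i.1 j : ℕ) (u j) * Tr d ((i.2 : ℕ) * (ℓ (some j) / β) * u j))‖ ≤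
      ((Q ^ Fintype.card τ * L : ℕ) : ℝ) *
        (Hg * (Fintype.card τ * A * (BB * (2 * (1 / 2) ^ d)))) := by
    rw [← Finset.sum_sub_distrib, ← hcI, ← nsmul_eq_mul, ← Finset.sum_const]
    refine (norm_sum_le _ _).trans (Finset.sum_le_sum fun i _ => ?_)
    rw [← mul_sub, norm_mul]
    exact mul_le_mul (hGn i) (hc1 i) (norm_nonneg _) hHg0
  have hsum2 : ‖C * ∑ i, (G i : ℂ) * ((∏ j, bp (i.1 j : ℕ) (u j)) * E ^ (i.2 : ℕ)) -
      C * ∑ i, (G i : ℂ) * ∏ j, (bp (i.1 j : ℕ) (u j) *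
      Complex.exp ((i.2 : ℕ) * (ℓ (some j) / β) * u j))‖ ≤
      ((Q ^ Fintype.card τ * L : ℕ) : ℝ) *
        (Hg * (BB ^ Fintype.card τ * W * (2 * (L * (T none * ‖Lam ℓ b‖))))) := by
    rw [Finset.mul_sum, Finset.mul_sum, ← Finset.sum_sub_distrib, ← hcI, ← nsmul_eq_mul,
      ← Finset.sum_const]
    refine (norm_sum_le _ _).trans (Finset.sum_le_sum fun i _ => ?_)
    have e1 : C * ((G i : ℂ) * ((∏ j, bp (i.1 j : ℕ) (u j)) * E ^ (i.2 : ℕ))) -
        C * ((G i : ℂ) * ∏ j, (bp (i.1 j : ℕ) (u j) *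
        Complex.exp ((i.2 : ℕ) * (ℓ (some j) / β) * u j))) =
        (G i : ℂ) * (C * ((∏ j, bp (i.1 j : ℕ) (u j)) * E ^ (i.2 : ℕ)) -
        C * ∏ j, (bp (i.1 j : ℕ) (u j) * Complex.exp ((i.2 : ℕ) * (ℓ (some j) / β) * u j))) := by
      ring
    rw [e1, norm_mul]
    exact mul_le_mul (hGn i) (hc2 i) (norm_nonneg _) hHg0
  have hsum3 := hGs u hub
  obtain ⟨q, hqall, hq⟩ := int_value hL G a c hc0
    (fun j => uu b (fun j => (s j : ℤ)) j) s T hs Z hZ ha hc Hg BB W hHg (by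
      intro l hl i
      exact (norm_bp_le U _ _ (hub i)).trans (hBB _ hl)) hW
  have hqσ := hq σ
  change σ (q : K) = C * ∑ i, (G i : ℂ) * ((∏ j, bp (i.1 j : ℕ) (u j)) * E ^ (i.2 : ℕ)) at hqσ
  have hM0 : 0 ≤ M := le_trans (by positivity) hM
  have hP : ‖σ (q : K)‖ * (4 * M ^ (Module.finrank ℚ K - 1)) ≤ 3 := by
    have t1 : ‖σ (q : K)‖ ≤
        ((Q ^ Fintype.card τ * L : ℕ) : ℝ) *
          (Hg * (BB ^ Fintype.card τ * W * (2 * (L * (T none * ‖Lam ℓ b‖))))) +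
        W * (((Q ^ Fintype.card τ * L : ℕ) : ℝ) *
          (Hg * (Fintype.card τ * A * (BB * (2 * (1 / 2) ^ d)))) + ε) := by
      rw [hqσ]
      have t2 := norm_sub_norm_le
        (C * ∑ i, (G i : ℂ) * ((∏ j, bp (i.1 j : ℕ) (u j)) * E ^ (i.2 : ℕ)))
        (C * ∑ i, (G i : ℂ) * ∏ j, (bp (i.1 j : ℕ) (u j) *
          Complex.exp ((i.2 : ℕ) * (ℓ (some j) / β) * u j)))
      have t3 := norm_sub_norm_le
        (∑ i, (G i : ℂ) * ∏ j, (bp (i.1 j : ℕ) (u j) *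
          Complex.exp ((i.2 : ℕ) * (ℓ (some j) / β) * u j)))
        (∑ i, (G i : ℂ) * ∏ j, (bp (i.1 j : ℕ) (u j) * Tr d ((i.2 : ℕ) * (ℓ (some j) / β) * u j)))
      have t4 : ‖C * ∑ i, (G i : ℂ) * ∏ j, (bp (i.1 j : ℕ) (u j) *
          Complex.exp ((i.2 : ℕ) * (ℓ (some j) / β) * u j))‖ ≤
          W * (((Q ^ Fintype.card τ * L : ℕ) : ℝ) *
          (Hg * (Fintype.card τ * A * (BB * (2 * (1 / 2) ^ d)))) + ε) := by
        rw [norm_mul]
        apply mul_le_mul hCW _ (norm_nonneg _) hWpos.le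
        linarith
      linarith
    have hM4 : 0 ≤ 4 * M ^ (Module.finrank ℚ K - 1) := by positivity
    calc _ ≤ _ := mul_le_mul_of_nonneg_right t1 hM4
      _ = ((Q ^ Fintype.card τ * L : ℕ) : ℝ) *
          (Hg * (BB ^ Fintype.card τ * (2 * (L * (T none * ‖Lam ℓ b‖))))) *
          (4 * W * M ^ (Module.finrank ℚ K - 1)) +
          ((Q ^ Fintype.card τ * L : ℕ) : ℝ) *
            (Hg * (Fintype.card τ * A * (BB * (2 * (1 / 2) ^ d)))) *
            (4 * W * M ^ (Module.finrank ℚ K - 1)) +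
          ε * (4 * W * M ^ (Module.finrank ℚ K - 1)) := by ring
      _ ≤ 3 := by linarith
  have hq0 : q = 0 := by
    by_contra hne
    have h5 := one_le_norm_mul_pow σ q hne M (fun φ => (hqall φ).trans hM)
    linarith
  rw [hq0] at hqσ
  have h6 : C * ∑ i, (G i : ℂ) * ((∏ j, bp (i.1 j : ℕ) (u j)) * E ^ (i.2 : ℕ)) = 0 := by
    rw [← hqσ]
    simp
  rcases mul_eq_zero.mp h6 with h | h
  · exact absurd h hCne
  · exact h

end Run7.h197.BK
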