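import Pool.Agent.Y913.Bk.Siegel

/-!
Linear forms in logarithms of algebraic numbers, sharp in one height, I: pigeonhole for complex
linear forms, the truncated exponential function, binomial polynomials.
-/

set_option autoImplicit false

namespace Run7.h197.BK

open Finset Polynomial

/-- **pigeonhole for complex linear forms** -/
theorem complex_siegel {I K : Type} [Fintype I] [DecidableEq I] [Fintype K] [DecidableEq K]
    (H N A : ℕ) (hN : 1 ≤ N) (c : K → I → ℂ) (hc : ∀ k i, ‖c k i‖ ≤ A)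
    (hpig : (2 * (Fintype.card I * H * A * N) + 1) ^ (2 * Fintype.card K) <
      (H + 1) ^ Fintype.card I) :
    ∃ G : I → ℤ, G ≠ 0 ∧ (∀ i, |G i| ≤ H) ∧ ∀ k, ‖∑ i, (G i : ℂ) * c k i‖ ≤ 2 / N := by
  classical
  obtain ⟨G, hG, hGH, hGs⟩ := Pool.Agent.Y913.Bk.real_siegel (I := I) (K := K ⊕ K) H N A hN
    (fun k i => k.elim (fun k => (c k i).re) (fun k => (c k i).im))
    (by
      rintro (k | k) i
      · exact (Complex.abs_re_le_norm _).trans (hc k i)
      · exact (Complex.abs_im_le_norm _).trans (hc k i))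
    (by
      rw [Fintype.card_sum, ← two_mul]
      exact hpig)
  refine ⟨G, hG, hGH, fun k => ?_⟩
  have h1 := hGs (Sum.inl k)
  have h2 := hGs (Sum.inr k)
  simp only [Sum.elim_inl, Sum.elim_inr] at h1 h2
  have h3 : (∑ i, (G i : ℂ) * c k i).re = ∑ i, (G i : ℝ) * (c k i).re := by
    rw [Complex.re_sum]
    apply Finset.sum_congr rfl
    intro i _
    simp
  have h4 : (∑ i, (G i : ℂ) * c k i).im = ∑ i, (G i : ℝ) * (c k i).im := by
    rw [Complex.im_sum]
    apply Finset.sum_congr rfl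
    intro i _
    simp
  refine (Complex.norm_le_abs_re_add_abs_im _).trans ?_
  rw [h3, h4]
  calc _ ≤ 1 / (N : ℝ) + 1 / N := add_le_add h1 h2
    _ = 2 / N := by ring

/-- truncated exponential -/
noncomputable def Tr (d : ℕ) (z : ℂ) : ℂ := ∑ k ∈ range d, z ^ k / (k.factorial : ℂ)

lemma norm_Tr_le (d : ℕ) (z : ℂ) : ‖Tr d z‖ ≤ Real.exp ‖z‖ := by
  unfold Tr
  calc ‖∑ k ∈ range d, z ^ k / (k.factorial : ℂ)‖
      ≤ ∑ k ∈ range d, ‖z ^ k / (k.factorial : ℂ)‖ := norm_sum_le _ _
    _ = ∑ k ∈ range d, ‖z‖ ^ k / (k.factorial : ℝ) := by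
        apply Finset.sum_congr rfl
        intro k _
        rw [norm_div, norm_pow, Complex.norm_natCast]
    _ ≤ Real.exp ‖z‖ := Real.sum_le_exp_of_nonneg (norm_nonneg z) d

/-- the tail of the exponential series -/
lemma norm_exp_sub_Tr {d : ℕ} {z : ℂ} (hz : 8 * ‖z‖ ≤ d) :
    ‖Complex.exp z - Tr d z‖ ≤ 2 * (1 / 2) ^ d := by
  have h2 := Complex.exp_bound' (x := z) (n := d) (by
    rw [div_le_iff₀ (by positivity)]
    push_cast
    have := norm_nonneg z
    linarith)
  refine h2.trans ?_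
  have h4 : ‖z‖ ^ d / (d.factorial : ℝ) ≤ (1 / 2) ^ d := by
    have h5 := Pool.Agent.Y913.Bk.pow_div_factorial_le (4 * ‖z‖) (by positivity) d
    have h6 : Real.exp (4 * ‖z‖) ≤ 2 ^ d := by
      have h7 : (4 : ℝ) * ‖z‖ ≤ d / 2 := by linarith
      calc Real.exp (4 * ‖z‖) ≤ Real.exp (d / 2) := Real.exp_le_exp.mpr h7
        _ ≤ Real.exp (d * Real.log 2) := by
            apply Real.exp_le_exp.mpr
            have h8 : (1 : ℝ) / 2 ≤ Real.log 2 := by
              have := Real.log_two_gt_d9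
              linarith
            have h9 : (0 : ℝ) ≤ d := Nat.cast_nonneg _
            nlinarith
        _ = 2 ^ d := by
            rw [mul_comm, Real.exp_mul, Real.exp_log (by norm_num), Real.rpow_natCast]
    rw [mul_pow] at h5
    have h10 : ‖z‖ ^ d / (d.factorial : ℝ) = (1 / 4) ^ d * (4 ^ d * ‖z‖ ^ d / (d.factorial : ℝ)) := by
      rw [one_div, inv_pow]
      field_simp
    rw [h10]
    calc (1 / 4 : ℝ) ^ d * (4 ^ d * ‖z‖ ^ d / (d.factorial : ℝ)) ≤ (1 / 4) ^ d * 2 ^ d := by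
          apply mul_le_mul_of_nonneg_left (h5.trans h6) (by positivity)
      _ = (1 / 2) ^ d := by rw [← mul_pow]; norm_num
  linarith

/-- the sum of the absolute values of the coefficients -/
noncomputable def n1 (p : ℂ[X]) : ℝ := ∑ i ∈ p.support, ‖p.coeff i‖

lemma n1_nonneg (p : ℂ[X]) : 0 ≤ n1 p := Finset.sum_nonneg (fun _ _ => norm_nonneg _)

lemma n1_eq {p : ℂ[X]} {s : Finset ℕ} (h : p.support ⊆ s) : n1 p = ∑ i ∈ s, ‖p.coeff i‖ := by
  unfold n1
  apply Finset.sum_subset h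
  intro i _ hi
  rw [Polynomial.notMem_support_iff.mp hi, norm_zero]

lemma norm_coeff_le_n1 (p : ℂ[X]) (i : ℕ) : ‖p.coeff i‖ ≤ n1 p := by
  rw [n1_eq (Finset.subset_insert i p.support)]
  exact Finset.single_le_sum (f := fun i => ‖p.coeff i‖) (fun _ _ => norm_nonneg _)
    (Finset.mem_insert_self _ _)

lemma n1_add (p q : ℂ[X]) : n1 (p + q) ≤ n1 p + n1 q := by
  have h1 : (p + q).support ⊆ p.support ∪ q.support := Polynomial.support_add
  rw [n1_eq h1, n1_eq (Finset.subset_union_left : p.support ⊆ p.support ∪ q.support),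
    n1_eq (Finset.subset_union_right : q.support ⊆ p.support ∪ q.support),
    ← Finset.sum_add_distrib]
  apply Finset.sum_le_sum
  intro i _
  rw [Polynomial.coeff_add]
  exact norm_add_le _ _

lemma n1_zero : n1 0 = 0 := by simp [n1]

lemma n1_sum {ι : Type} (s : Finset ι) (f : ι → ℂ[X]) : n1 (∑ i ∈ s, f i) ≤ ∑ i ∈ s, n1 (f i) := by
  classical
  induction s using Finset.induction_on with
  | empty => simp [n1_zero]
  | insert a s ha ih =>
    rw [Finset.sum_insert ha, Finset.sum_insert ha]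
    exact (n1_add _ _).trans (by linarith)

lemma n1_monomial_mul (i : ℕ) (a : ℂ) (q : ℂ[X]) :
    n1 (monomial i a * q) ≤ ‖a‖ * n1 q := by
  have h1 : (monomial i a * q).support ⊆ q.support.image (fun k => k + i) := by
    intro k hk
    rw [Polynomial.mem_support_iff] at hk
    rw [← Polynomial.C_mul_X_pow_eq_monomial, mul_assoc, Polynomial.coeff_C_mul,
      Polynomial.coeff_X_pow_mul'] at hk
    rw [Finset.mem_image]
    split_ifs at hk with h
    · refine ⟨k - i, ?_, by omega⟩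
      rw [Polynomial.mem_support_iff]
      intro h0
      exact hk (by rw [h0, mul_zero])
    · exact absurd (mul_zero _) hk
  rw [n1_eq h1, Finset.sum_image (fun a _ b _ h => by simpa using h)]
  unfold n1
  rw [Finset.mul_sum]
  apply Finset.sum_le_sum
  intro k _
  rw [← Polynomial.C_mul_X_pow_eq_monomial, mul_assoc, Polynomial.coeff_C_mul,
    Polynomial.coeff_X_pow_mul, norm_mul]

lemma n1_mul (p q : ℂ[X]) : n1 (p * q) ≤ n1 p * n1 q := by
  conv_lhs => rw [Polynomial.as_sum_support p, Finset.sum_mul]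
  refine (n1_sum _ _).trans ?_
  unfold n1
  rw [Finset.sum_mul]
  apply Finset.sum_le_sum
  intro i _
  exact n1_monomial_mul i _ q

lemma n1_monomial (i : ℕ) (a : ℂ) : n1 (monomial i a) ≤ ‖a‖ := by
  rw [n1_eq (Polynomial.support_monomial_subset i a)]
  simp

lemma n1_one : n1 1 ≤ 1 := by
  have := n1_monomial 0 1
  simpa using this

lemma eval_eq_sum {p : ℂ[X]} {n : ℕ} (h : p.natDegree < n) (z : ℂ) :
    p.eval z = ∑ e : Fin n, p.coeff e * z ^ (e : ℕ) := by
  rw [Fin.sum_univ_eq_sum_range (fun e => p.coeff e * z ^ e) n, Polynomial.eval_eq_sum_range' h]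

/-- the polynomial `binom (U z) l` in `z` -/
noncomputable def bpP (U : ℝ) (l : ℕ) : ℂ[X] :=
  ∏ t ∈ range l, (C ((U : ℂ) / ((t : ℂ) + 1)) * X - C ((t : ℂ) / ((t : ℂ) + 1)))

/-- binomial function -/
noncomputable def bp (l : ℕ) (u : ℂ) : ℂ := ∏ t ∈ range l, ((u - t) / ((t : ℂ) + 1))

lemma eval_bpP (U : ℝ) (l : ℕ) (z : ℂ) : (bpP U l).eval z = bp l (U * z) := by
  unfold bpP bp
  rw [Polynomial.eval_prod]
  apply Finset.prod_congr rfl
  intro t _
  simp only [Polynomial.eval_sub, Polynomial.eval_mul, Polynomial.eval_C, Polynomial.eval_X]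
  ring

lemma natDegree_bpP (U : ℝ) (l : ℕ) : (bpP U l).natDegree ≤ l := by
  unfold bpP
  refine (Polynomial.natDegree_prod_le _ _).trans ?_
  calc ∑ t ∈ range l, (C ((U : ℂ) / ((t : ℂ) + 1)) * X - C ((t : ℂ) / ((t : ℂ) + 1))).natDegree
      ≤ ∑ _t ∈ range l, 1 := by
        apply Finset.sum_le_sum
        intro t _
        refine (Polynomial.natDegree_sub_le _ _).trans ?_
        rw [Polynomial.natDegree_C]
        exact max_le ((Polynomial.natDegree_C_mul_le _ _).trans Polynomial.natDegree_X_le) (Nat.zero_le _)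
    _ = l := by simp

/-- `(U + Q) ^ l / l!`-type bound, as a product -/
lemma prod_le_pow_div (x : ℝ) (hx : 0 ≤ x) (l : ℕ) :
    ∏ t ∈ range l, ((x + t) / ((t : ℝ) + 1)) ≤ ∏ t ∈ range l, ((x + l) / ((t : ℝ) + 1)) := by
  apply Finset.prod_le_prod
  · intro t _
    positivity
  · intro t ht
    have h1 : (t : ℝ) ≤ l := by exact_mod_cast (Finset.mem_range.mp ht).le
    gcongr

lemma prod_div_succ (x : ℝ) (l : ℕ) :
    ∏ t ∈ range l, (x / ((t : ℝ) + 1)) = x ^ l / (l.factorial : ℝ) := by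
  rw [Finset.prod_div_distrib, Finset.prod_const, Finset.card_range,
    ← Finset.prod_range_add_one_eq_factorial]
  push_cast
  rfl

lemma n1_bpP (U : ℝ) (hU : 0 ≤ U) (l : ℕ) :
    n1 (bpP U l) ≤ ∏ t ∈ range l, ((U + t) / ((t : ℝ) + 1)) := by
  unfold bpP
  have h : ∀ s : Finset ℕ, n1 (∏ t ∈ s, (C ((U : ℂ) / ((t : ℂ) + 1)) * X -
      C ((t : ℂ) / ((t : ℂ) + 1)))) ≤ ∏ t ∈ s, ((U + t) / ((t : ℝ) + 1)) := by
    intro s
    induction s using Finset.induction_on with
    | empty => simpa using n1_one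
    | insert t s ht ih =>
      rw [Finset.prod_insert ht, Finset.prod_insert ht]
      refine (n1_mul _ _).trans ?_
      apply mul_le_mul _ ih (n1_nonneg _) (by positivity)
      have e1 : C ((U : ℂ) / ((t : ℂ) + 1)) * X - C ((t : ℂ) / ((t : ℂ) + 1)) =
          monomial 1 ((U : ℂ) / ((t : ℂ) + 1)) + monomial 0 (-((t : ℂ) / ((t : ℂ) + 1))) := by
        rw [← Polynomial.C_mul_X_eq_monomial, Polynomial.monomial_zero_left, map_neg]
        ring
      rw [e1]
      refine (n1_add _ _).trans ((add_le_add (n1_monomial _ _) (n1_monomial _ _)).trans ?_)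
      have h1 : ‖((t : ℂ) + 1)‖ = (t : ℝ) + 1 := by
        have : ((t : ℂ) + 1) = ((t + 1 : ℕ) : ℂ) := by push_cast; rfl
        rw [this, Complex.norm_natCast]
        push_cast
        rfl
      rw [norm_neg, norm_div, norm_div, h1, Complex.norm_natCast, Complex.norm_real,
        Real.norm_eq_abs, abs_of_nonneg hU]
      rw [add_div]
  exact h _

lemma norm_bp_le (U : ℝ) (l : ℕ) (u : ℂ) (hu : ‖u‖ ≤ U) :
    ‖bp l u‖ ≤ ∏ t ∈ range l, ((U + t) / ((t : ℝ) + 1)) := by
  unfold bp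
  rw [norm_prod]
  apply Finset.prod_le_prod (fun _ _ => norm_nonneg _)
  intro t _
  have h1 : ‖((t : ℂ) + 1)‖ = (t : ℝ) + 1 := by
    have : ((t : ℂ) + 1) = ((t + 1 : ℕ) : ℂ) := by push_cast; rfl
    rw [this, Complex.norm_natCast]
    push_cast
    rfl
  rw [norm_div, h1]
  have h2 : ‖u - t‖ ≤ U + t := by
    refine (norm_sub_le _ _).trans ?_
    rw [Complex.norm_natCast]
    linarith
  gcongr

/-- the truncated exponential as a polynomial -/
noncomputable def TrP (d : ℕ) (x : ℂ) : ℂ[X] :=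
  ∑ k ∈ range d, monomial k (x ^ k / (k.factorial : ℂ))

lemma eval_TrP (d : ℕ) (x z : ℂ) : (TrP d x).eval z = Tr d (x * z) := by
  unfold TrP Tr
  rw [Polynomial.eval_finsetSum]
  apply Finset.sum_congr rfl
  intro k _
  rw [Polynomial.eval_monomial, mul_pow]
  ring

lemma n1_TrP (d : ℕ) (x : ℂ) : n1 (TrP d x) ≤ Real.exp ‖x‖ := by
  unfold TrP
  refine (n1_sum _ _).trans (le_trans ?_ (Real.sum_le_exp_of_nonneg (norm_nonneg x) d))
  apply Finset.sum_le_sum
  intro k _
  refine (n1_monomial _ _).trans ?_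
  rw [norm_div, norm_pow, Complex.norm_natCast]

lemma natDegree_TrP (d : ℕ) (x : ℂ) : (TrP d x).natDegree ≤ d := by
  unfold TrP
  apply Polynomial.natDegree_sum_le_of_forall_le
  intro k hk
  exact (Polynomial.natDegree_monomial_le _).trans (Finset.mem_range.mp hk).le

end Run7.h197.BK
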