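import Pool.Agent.Run7.h197.BK.Step
import Pool.Agent.Y913.Bk.Weak

/-!
**A lower bound for linear forms in logarithms of algebraic numbers, sharp in one height**:
let `K` be a number field, `α j = a j / c j`, `j = none` or `j : Fin m`, with nonzero integers
`a j`, `c j` of `K` all of whose conjugates are at most `2 ^ g` for `j : Fin m` and at most
`2 ^ (g H)` for `j = none`; let `ℓ j` be logarithms of the conjugates `σ (α j)`, `|ℓ j| ≤ g` for
`j : Fin m`, and `b j` integers with `b none ≠ 0`, `|b none| ≤ 2 ^ g` and `|b j| ≤ g |b none|`. Then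
`|∑ b j ℓ j| ≥ 2 ^ (- g ^ κ H)` with `κ = κ (m, K)`, for all `g ≥ g0 (m, K)` and all `H ≥ 1`, if
`∏ α j ^ (b j)` is not a root of unity.
-/

set_option autoImplicit false

namespace Run7.h197.BK

open Finset NumberField
open Pool.Agent.Y913.Bk (PolyB)

lemma polyB_MM (D m : ℕ) : PolyB (fun g => MM D m g) :=
  (PolyB.const (EE D + 1)).mul ((PolyB.const (8 * (m + 1) ^ 2)).mul (PolyB.id.pow 2))

lemma polyB_LL (D m : ℕ) : PolyB (fun g => LL D m g) :=
  ((PolyB.const (2 * EE D)).mul ((polyB_MM D m).pow m)).add (PolyB.const 1)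

lemma polyB_C1 (D m : ℕ) : PolyB (fun g => C1 D m g) :=
  (PolyB.const (2 ^ ((m + 2) * (m + 1)))).mul ((polyB_LL D m).pow (m + 1))

lemma polyB_SS (D m : ℕ) : PolyB (fun g => SS D m g) :=
  ((PolyB.const 2).mul (polyB_C1 D m)).add (PolyB.const 1)

lemma polyB_DD (D m : ℕ) : PolyB (fun g => DD D m g) :=
  ((PolyB.const (EE D)).mul ((PolyB.const (8 * (m + 1) ^ 2)).mul (PolyB.id.pow 2))).mul
    ((polyB_LL D m).mul (polyB_SS D m))

variable {K : Type} [Field K] [NumberField K]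

/-- products of powers -/
lemma prod_zpow_split {J : Type} [Fintype J] (a c : J → 𝓞 K) (ha0 : ∀ j, a j ≠ 0)
    (hc0 : ∀ j, c j ≠ 0) (Z : J → ℝ) (ha : ∀ (φ : K →+* ℂ) j, ‖φ (a j : K)‖ ≤ Z j)
    (hc : ∀ (φ : K →+* ℂ) j, ‖φ (c j : K)‖ ≤ Z j) (d : J → ℤ) :
    ∃ a' c' : 𝓞 K, a' ≠ 0 ∧ c' ≠ 0 ∧ (∀ φ : K →+* ℂ, ‖φ (a' : K)‖ ≤ ∏ j, Z j ^ (d j).natAbs) ∧
      (∀ φ : K →+* ℂ, ‖φ (c' : K)‖ ≤ ∏ j, Z j ^ (d j).natAbs) ∧
      ∀ φ : K →+* ℂ, φ (a' : K) / φ (c' : K) = ∏ j, (φ (a j : K) / φ (c j : K)) ^ (d j) := by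
  have hψ : ∀ (φ : K →+* ℂ) (x : 𝓞 K), φ (x : K) = (φ.comp (algebraMap (𝓞 K) K)) x :=
    fun φ x => rfl
  refine ⟨∏ j, (if 0 ≤ d j then a j else c j) ^ (d j).natAbs,
    ∏ j, (if 0 ≤ d j then c j else a j) ^ (d j).natAbs, ?_, ?_, ?_, ?_, ?_⟩
  · apply Finset.prod_ne_zero_iff.mpr
    intro j _
    apply pow_ne_zero
    split_ifs
    · exact ha0 j
    · exact hc0 j
  · apply Finset.prod_ne_zero_iff.mpr
    intro j _
    apply pow_ne_zero
    split_ifs
    · exact hc0 j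
    · exact ha0 j
  · intro φ
    rw [hψ, map_prod, norm_prod]
    apply Finset.prod_le_prod (fun _ _ => norm_nonneg _)
    intro j _
    rw [map_pow, norm_pow]
    apply pow_le_pow_left₀ (norm_nonneg _)
    split_ifs
    · exact ha φ j
    · exact hc φ j
  · intro φ
    rw [hψ, map_prod, norm_prod]
    apply Finset.prod_le_prod (fun _ _ => norm_nonneg _)
    intro j _
    rw [map_pow, norm_pow]
    apply pow_le_pow_left₀ (norm_nonneg _)
    split_ifs
    · exact hc φ j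
    · exact ha φ j
  · intro φ
    rw [hψ, hψ, map_prod, map_prod, ← Finset.prod_div_distrib]
    apply Finset.prod_congr rfl
    intro j _
    rw [map_pow, map_pow, ← div_pow, ← zpow_natCast, hψ, hψ]
    by_cases h : 0 ≤ d j
    · rw [if_pos h, if_pos h, Int.natAbs_of_nonneg h]
    · rw [if_neg h, if_neg h]
      have h3 : (((d j).natAbs : ℕ) : ℤ) = - d j := by omega
      rw [h3, zpow_neg, ← inv_zpow, inv_div]

variable (K) in
/-- the bound for `m + 1` logarithms with the exponent `κ`, for `g ≥ g0` -/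
def SB (m κ g0 : ℕ) : Prop := ∀ g, g0 ≤ g → ∀ H, 1 ≤ H → ∀ (σ : K →+* ℂ)
  (a c : Option (Fin m) → 𝓞 K) (ℓ : Option (Fin m) → ℂ) (b : Option (Fin m) → ℤ),
  (∀ j, a j ≠ 0) → (∀ j, c j ≠ 0) →
  (∀ (φ : K →+* ℂ) j, ‖φ (a j : K)‖ ≤ 2 ^ (g * (j.elim H (fun _ => 1) : ℕ))) →
  (∀ (φ : K →+* ℂ) j, ‖φ (c j : K)‖ ≤ 2 ^ (g * (j.elim H (fun _ => 1) : ℕ))) →
  (∀ j, Complex.exp (ℓ j) = σ (a j : K) / σ (c j : K)) → (∀ i : Fin m, ‖ℓ (some i)‖ ≤ g) →
  b none ≠ 0 → |b none| ≤ 2 ^ g → (∀ i : Fin m, |b (some i)| ≤ g * |b none|) →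
  (∀ N : ℕ, 1 ≤ N → Complex.exp (N * Lam ℓ b) ≠ 1) →
  (1 / 2 : ℝ) ^ (g ^ κ * H) ≤ ‖Lam ℓ b‖

omit [NumberField K] in
lemma SB.mono {m κ g0 κ' g0' : ℕ} (h : SB K m κ g0) (hκ : κ ≤ κ') (hg : g0 ≤ g0') (hg1 : 1 ≤ g0') :
    SB K m κ' g0' := by
  intro g hg' H hH σ a c ℓ b h1 h2 h3 h4 h5 h6 h7 h8 h9 h10
  refine le_trans ?_ (h g (hg.trans hg') H hH σ a c ℓ b h1 h2 h3 h4 h5 h6 h7 h8 h9 h10)
  apply pow_le_pow_of_le_one (by norm_num) (by norm_num)
  exact Nat.mul_le_mul_right _ (Nat.pow_le_pow_right (by omega) hκ)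

/-- **the inductive step** -/
theorem SB_step (m : ℕ) (ih : ∀ r < m, ∃ κ g0, SB K r κ g0) : ∃ κ g0, SB K m κ g0 := by
  classical
  obtain ⟨D, hD⟩ : ∃ D, D = Module.finrank ℚ K := ⟨_, rfl⟩
  -- common constants for the smaller cases
  choose! κ0 g00 hWB0 using ih
  obtain ⟨κ', hκ'⟩ : ∃ κ', κ' = ∑ r ∈ range m, κ0 r := ⟨_, rfl⟩
  obtain ⟨g0', hg0'⟩ : ∃ g0', g0' = ∑ r ∈ range m, g00 r + 1 := ⟨_, rfl⟩
  have hWB : ∀ r < m, SB K r κ' g0' := by
    intro r hr
    apply (hWB0 r hr).mono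
    · rw [hκ']
      exact Finset.single_le_sum (fun i _ => Nat.zero_le _) (Finset.mem_range.mpr hr)
    · rw [hg0']
      exact (Finset.single_le_sum (f := g00) (fun i _ => Nat.zero_le _)
        (Finset.mem_range.mpr hr)).trans (Nat.le_succ _)
    · omega
  -- growth of the parameters
  obtain ⟨E, g1, hE⟩ := (polyB_DD D m).add (PolyB.id.mul ((PolyB.const ((m + 1) * m)).mul
    (((PolyB.const 2).mul (polyB_C1 D m)).add (PolyB.id.mul (polyB_SS D m)))))
  obtain ⟨g2, hg2⟩ := (((PolyB.const (m + 1)).mul (PolyB.id.add (PolyB.const 1))).add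
    (PolyB.const 1)).le_two_pow
  obtain ⟨g3, hg3⟩ := (polyB_MM D m).le_two_pow
  refine ⟨E * (κ' + 1) + 1, max (max g1 g2) (max g3 (max g0' 2)), ?_⟩
  intro g hg H hH σ a c ℓ b ha0 hc0 ha hc hℓ hℓg hb0 hbg hb hnt
  have hgg1 : g1 ≤ g := (le_max_left _ _).trans ((le_max_left _ _).trans hg)
  have hgg2 : g2 ≤ g := (le_max_right _ _).trans ((le_max_left _ _).trans hg)
  have hgg3 : g3 ≤ g := (le_max_left _ _).trans ((le_max_right _ _).trans hg)
  have hgg0 : g0' ≤ g :=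
    (le_max_left _ _).trans ((le_max_right _ _).trans ((le_max_right _ _).trans hg))
  have hgge : 2 ≤ g :=
    (le_max_right _ _).trans ((le_max_right _ _).trans ((le_max_right _ _).trans hg))
  have hE' := hE g hgg1
  have hbig1 := hg2 g hgg2
  have hbig2 := hg3 g hgg3
  simp only at hE' hbig1 hbig2
  obtain ⟨c1, hc1⟩ : ∃ c1, c1 = C1 D m g := ⟨_, rfl⟩
  obtain ⟨S, hS⟩ : ∃ S, S = SS D m g := ⟨_, rfl⟩
  have hc11 : 1 ≤ c1 := hc1 ▸ C1_pos D m g
  rw [← hc1, ← hS] at hE'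
  obtain ⟨R, hR⟩ : ∃ R, R = m * (2 * c1 + g * S) := ⟨_, rfl⟩
  obtain ⟨g', hg'⟩ : ∃ g', g' = g * ((m + 1) * R) := ⟨_, rfl⟩
  have hgE0 : g * ((m + 1) * m * (2 * c1 + g * S)) = g' := by rw [hg', hR]; ring
  rw [hgE0] at hE'
  have hd2 : DD D m g ≤ g ^ E := le_trans (Nat.le_add_right _ _) hE'
  have hgE : g' ≤ g ^ E := le_trans (Nat.le_add_left _ _) hE'
  have hfin1 : DD D m g ≤ g ^ (E * (κ' + 1) + 1) := by
    refine hd2.trans (Nat.pow_le_pow_right (by omega) ?_)
    nlinarith [Nat.zero_le (E * κ')]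
  have hfin2 : g' ^ κ' + g' ≤ g ^ (E * (κ' + 1) + 1) := by
    have h1 : g' ^ κ' ≤ g ^ (E * (κ' + 1)) := by
      calc g' ^ κ' ≤ (g ^ E) ^ κ' := Nat.pow_le_pow_left hgE _
        _ = g ^ (E * κ') := by rw [← pow_mul]
        _ ≤ g ^ (E * (κ' + 1)) := Nat.pow_le_pow_right (by omega) (Nat.mul_le_mul_left _ (by omega))
    have h2 : g' ≤ g ^ (E * (κ' + 1)) := by
      refine hgE.trans (Nat.pow_le_pow_right (by omega) ?_)
      nlinarith [Nat.zero_le (E * κ')]
    calc g' ^ κ' + g' ≤ g ^ (E * (κ' + 1)) * 2 := by omega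
      _ ≤ g ^ (E * (κ' + 1)) * g := Nat.mul_le_mul_left _ hgge
      _ = _ := by rw [pow_succ]
  by_cases hsmall : ‖Lam ℓ b‖ ≤ (1 / 2) ^ (DD D m g * H)
  swap
  · rw [not_le] at hsmall
    refine le_trans ?_ hsmall.le
    exact pow_le_pow_of_le_one (by norm_num) (by norm_num) (Nat.mul_le_mul_right _ hfin1)
  have hdich := dichotomy (τ := Fin m) g H (by omega) hH
    (by rw [Fintype.card_fin]; exact hbig1) (by rw [Fintype.card_fin, ← hD]; exact hbig2)
    σ a c ha0 hc0 ha hc ℓ hℓ hℓg b hb0 hbg hb hnt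
    (by rw [Fintype.card_fin, ← hD]; exact hsmall)
  rw [Fintype.card_fin, ← hD, ← hc1, ← hS, ← hR] at hdich
  obtain ⟨ρ, d, v, q, p0, p, hρm, hq0, hp0, hrel, hvn, hdR, hvR, hqb, hp0b, hpb⟩ := hdich
  have hm1 : 1 ≤ m := by omega
  have hρ : ρ < m := by omega
  -- sizes
  have hgS : g * S ≤ R ∧ 2 * c1 + g * S ≤ R := by
    have h1 : 2 * c1 + g * S ≤ R := by rw [hR]; exact Nat.le_mul_of_pos_left _ hm1
    exact ⟨by omega, h1⟩
  have hR1 : 1 ≤ R := by omega
  have hRg' : 2 * (g * R) ≤ g' := by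
    rw [hg']
    calc 2 * (g * R) = g * (2 * R) := by ring
      _ ≤ g * ((m + 1) * R) := by
          apply Nat.mul_le_mul_left
          apply Nat.mul_le_mul_right
          omega
  have hRg : R ≤ g * R := Nat.le_mul_of_pos_left _ (by omega)
  have hgRg : g ≤ g * R := Nat.le_mul_of_pos_right _ hR1
  have hgg' : g ≤ g' := by omega
  have h2c1m : 2 * c1 * m ≤ R := by
    rw [hR]
    calc 2 * c1 * m = m * (2 * c1) := by ring
      _ ≤ m * (2 * c1 + g * S) := Nat.mul_le_mul_left _ (Nat.le_add_right _ _)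
  have h2c1 : (2 * c1) ^ ρ ≤ 2 ^ (2 * c1 * m) := by
    calc (2 * c1) ^ ρ ≤ (2 ^ (2 * c1)) ^ ρ := Nat.pow_le_pow_left Nat.lt_two_pow_self.le _
      _ = 2 ^ (2 * c1 * ρ) := by rw [← pow_mul]
      _ ≤ 2 ^ (2 * c1 * m) := Nat.pow_le_pow_right (by norm_num) (Nat.mul_le_mul_left _ hρ.le)
  have hqg' : |q| ≤ ((2 ^ g' : ℕ) : ℤ) := by
    refine hqb.trans ?_
    have h1 : S * (2 * c1) ^ ρ ≤ 2 ^ g' := by
      calc S * (2 * c1) ^ ρ ≤ 2 ^ S * 2 ^ (2 * c1 * m) :=
            Nat.mul_le_mul Nat.lt_two_pow_self.le h2c1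
        _ = 2 ^ (S + 2 * c1 * m) := by rw [← pow_add]
        _ ≤ 2 ^ g' := by
            apply Nat.pow_le_pow_right (by norm_num)
            have h3 : S ≤ g * S := Nat.le_mul_of_pos_left _ (by omega)
            omega
    exact_mod_cast h1
  have hp0g' : |p0| ≤ ((2 ^ g' : ℕ) : ℤ) := by
    refine hp0b.trans ?_
    calc |b none| * (((2 * c1) ^ ρ : ℕ) : ℤ) ≤ 2 ^ g * ((2 ^ (2 * c1 * m) : ℕ) : ℤ) := by
          have h1 : (((2 * c1) ^ ρ : ℕ) : ℤ) ≤ ((2 ^ (2 * c1 * m) : ℕ) : ℤ) := by exact_mod_cast h2c1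
          exact mul_le_mul hbg h1 (by positivity) (by positivity)
      _ = ((2 ^ (g + 2 * c1 * m) : ℕ) : ℤ) := by push_cast; rw [pow_add]
      _ ≤ ((2 ^ g' : ℕ) : ℤ) := by
          have h1 : 2 ^ (g + 2 * c1 * m) ≤ 2 ^ g' := Nat.pow_le_pow_right (by norm_num) (by omega)
          exact_mod_cast h1
  -- the new numbers
  let w : Option (Fin ρ) → Option (Fin m) → ℤ := fun i => i.elim d v
  have hwR : ∀ i j, (w i j).natAbs ≤ R := by
    intro i j
    have h1 : |w i j| ≤ (R : ℤ) := by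
      rcases i with _ | l
      · exact hdR j
      · exact hvR l j
    rw [← Int.natCast_natAbs] at h1
    exact_mod_cast h1
  choose a' c' ha'0 hc'0 ha' hc' hac' using fun i => prod_zpow_split a c ha0 hc0
    (fun j => (2 : ℝ) ^ (g * (j.elim H (fun _ => 1) : ℕ))) ha hc (w i)
  have hsize : ∀ i, ∏ j, ((2 : ℝ) ^ (g * (j.elim H (fun _ => 1) : ℕ))) ^ (w i j).natAbs ≤
      2 ^ (g' * (i.elim H (fun _ => 1) : ℕ)) := by
    intro i
    rw [Fintype.prod_option]
    simp only [Option.elim_none, Option.elim_some, mul_one]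
    have h1 : ∏ k : Fin m, ((2 : ℝ) ^ g) ^ (w i (some k)).natAbs ≤ 2 ^ (g * R * m) := by
      calc ∏ k : Fin m, ((2 : ℝ) ^ g) ^ (w i (some k)).natAbs ≤ ∏ _k : Fin m, ((2 : ℝ) ^ g) ^ R := by
            apply Finset.prod_le_prod (fun _ _ => by positivity)
            intro k _
            exact pow_le_pow_right₀ (one_le_pow₀ (by norm_num)) (hwR i _)
        _ = _ := by
            rw [Finset.prod_const, Finset.card_univ, Fintype.card_fin, ← pow_mul, ← pow_mul,
              mul_assoc]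
    rcases i with _ | l
    · simp only [Option.elim_none]
      have h2 : ((2 : ℝ) ^ (g * H)) ^ (w none none).natAbs ≤ 2 ^ (g * H * R) := by
        rw [← pow_mul]
        exact pow_le_pow_right₀ (by norm_num) (Nat.mul_le_mul_left _ (hwR none none))
      calc _ ≤ (2 : ℝ) ^ (g * H * R) * 2 ^ (g * R * m) :=
            mul_le_mul h2 h1 (by positivity) (by positivity)
        _ = 2 ^ (g * H * R + g * R * m) := by rw [← pow_add]
        _ ≤ 2 ^ (g' * H) := by
            apply pow_le_pow_right₀ (by norm_num)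
            rw [hg']
            have h3 : g * R * m ≤ g * R * m * H := Nat.le_mul_of_pos_right _ hH
            calc g * H * R + g * R * m ≤ g * H * R + g * R * m * H := by omega
              _ = g * ((m + 1) * R) * H := by ring
    · simp only [Option.elim_some, mul_one]
      have h2 : (w (some l) none) = 0 := hvn l
      rw [h2, Int.natAbs_zero, pow_zero, one_mul]
      refine h1.trans (pow_le_pow_right₀ (by norm_num) ?_)
      rw [hg']
      calc g * R * m = g * (m * R) := by ring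
        _ ≤ g * ((m + 1) * R) := by
            apply Nat.mul_le_mul_left
            apply Nat.mul_le_mul_right
            omega
  let ℓ' : Option (Fin ρ) → ℂ := fun i => ∑ j, (w i j : ℂ) * ℓ j
  have hℓ' : ∀ i, Complex.exp (ℓ' i) = σ (a' i : K) / σ (c' i : K) := by
    intro i
    rw [hac' i σ]
    simp only [ℓ']
    rw [Complex.exp_sum]
    apply Finset.prod_congr rfl
    intro j _
    rw [← hℓ j, Complex.exp_int_mul]
  have hℓ'g : ∀ l : Fin ρ, ‖ℓ' (some l)‖ ≤ (g' : ℕ) := by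
    intro l
    simp only [ℓ']
    rw [Fintype.sum_option]
    have h2 : (w (some l) none) = 0 := hvn l
    rw [h2, Int.cast_zero, zero_mul, zero_add]
    calc ‖∑ k : Fin m, (w (some l) (some k) : ℂ) * ℓ (some k)‖
        ≤ ∑ k : Fin m, ‖(w (some l) (some k) : ℂ) * ℓ (some k)‖ := norm_sum_le _ _
      _ ≤ ∑ _k : Fin m, ((R * g : ℕ) : ℝ) := by
          apply Finset.sum_le_sum
          intro k _
          rw [norm_mul, Complex.norm_intCast]
          have h3 : |(w (some l) (some k) : ℝ)| ≤ R := by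
            have h4 := hvR l (some k)
            rw [← Int.cast_abs]
            have h5 : w (some l) (some k) = v l (some k) := rfl
            rw [h5]
            exact_mod_cast h4
          push_cast
          exact mul_le_mul h3 (hℓg k) (norm_nonneg _) (Nat.cast_nonneg _)
      _ = ((m * (R * g) : ℕ) : ℝ) := by
          rw [Finset.sum_const, Finset.card_univ, Fintype.card_fin, nsmul_eq_mul]
          push_cast
          rfl
      _ ≤ (g' : ℕ) := by
          have h3 : m * (R * g) ≤ g' := by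
            rw [hg']
            calc m * (R * g) = g * (m * R) := by ring
              _ ≤ g * ((m + 1) * R) := by
                  apply Nat.mul_le_mul_left
                  apply Nat.mul_le_mul_right
                  omega
          exact_mod_cast h3
  let b' : Option (Fin ρ) → ℤ := fun i => i.elim p0 p
  have hLam' : Lam ℓ' b' = q * Lam ℓ b := by
    unfold Lam
    rw [Finset.mul_sum]
    simp only [ℓ', Finset.mul_sum]
    rw [Finset.sum_comm]
    apply Finset.sum_congr rfl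
    intro j _
    have h2 : ((q * b j : ℤ) : ℂ) = ((p0 * d j + ∑ l, p l * v l j : ℤ) : ℂ) := by rw [hrel j]
    push_cast at h2
    rw [← mul_assoc, h2, Fintype.sum_option, add_mul, Finset.sum_mul]
    simp only [b', w, Option.elim_none, Option.elim_some]
    congr 1
    · ring
    · apply Finset.sum_congr rfl
      intro l _
      ring
  have hnt' : ∀ N : ℕ, 1 ≤ N → Complex.exp (N * Lam ℓ' b') ≠ 1 := by
    intro N hN h
    rw [hLam'] at h
    apply hnt (N * q.natAbs) (Nat.mul_pos hN (Int.natAbs_pos.mpr hq0))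
    rcases Int.natAbs_eq q with h1 | h1
    · have h2 : ((N * q.natAbs : ℕ) : ℂ) * Lam ℓ b = N * (q * Lam ℓ b) := by
        have h3 : (q : ℂ) = ((q.natAbs : ℕ) : ℂ) := by
          rw [← Int.cast_natCast, ← h1]
        rw [h3]
        push_cast
        ring
      rw [h2]
      exact h
    · have h2 : ((N * q.natAbs : ℕ) : ℂ) * Lam ℓ b = -(N * (q * Lam ℓ b)) := by
        have h3 : (q : ℂ) = -((q.natAbs : ℕ) : ℂ) := by
          rw [← Int.cast_natCast, ← Int.cast_neg, ← h1]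
        rw [h3]
        push_cast
        ring
      rw [h2, Complex.exp_neg, h, inv_one]
  have hmain := hWB ρ hρ g' (hgg0.trans hgg') H hH σ a' c' ℓ' b' ha'0 hc'0
    (fun φ i => (ha' i φ).trans (hsize i)) (fun φ i => (hc' i φ).trans (hsize i)) hℓ' hℓ'g
    hp0 (by exact_mod_cast hp0g') (by
      intro l
      refine (hpb l).trans ?_
      have h1 : ((2 * c1 + g * S : ℕ) : ℤ) ≤ (g' : ℤ) := by
        have h2 : 2 * c1 + g * S ≤ g' := by omega
        exact_mod_cast h2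
      exact mul_le_mul_of_nonneg_right h1 (abs_nonneg _)) hnt'
  rw [hLam', norm_mul, Complex.norm_intCast] at hmain
  have hqR : |(q : ℝ)| ≤ 2 ^ g' := by
    rw [← Int.cast_abs]
    exact_mod_cast hqg'
  have h1 : (1 / 2 : ℝ) ^ (g' ^ κ' * H + g') ≤ ‖Lam ℓ b‖ := by
    rw [pow_add]
    have h2 : (1 / 2 : ℝ) ^ (g' ^ κ' * H) ≤ 2 ^ g' * ‖Lam ℓ b‖ :=
      hmain.trans (mul_le_mul_of_nonneg_right hqR (norm_nonneg _))
    calc (1 / 2 : ℝ) ^ (g' ^ κ' * H) * (1 / 2) ^ g' ≤ (2 ^ g' * ‖Lam ℓ b‖) * (1 / 2) ^ g' :=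
          mul_le_mul_of_nonneg_right h2 (by positivity)
      _ = ‖Lam ℓ b‖ * (2 * (1 / 2)) ^ g' := by rw [mul_pow]; ring
      _ = ‖Lam ℓ b‖ := by norm_num
  refine le_trans ?_ h1
  apply pow_le_pow_of_le_one (by norm_num) (by norm_num)
  calc g' ^ κ' * H + g' ≤ g' ^ κ' * H + g' * H := by
        have : g' ≤ g' * H := Nat.le_mul_of_pos_right _ hH
        omega
    _ = (g' ^ κ' + g') * H := by ring
    _ ≤ _ := Nat.mul_le_mul_right _ hfin2

variable (K) in
/-- **lower bound for linear forms in logarithms of algebraic numbers, sharp in one height** -/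
theorem SB_all (m : ℕ) : ∃ κ g0, SB K m κ g0 := by
  induction m using Nat.strong_induction_on with
  | _ m ih => exact SB_step m (fun r hr => ih r hr)

end Run7.h197.BK
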