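import Pool.Agent.Run7.h197.BK.Pts

/-!
Linear forms in logarithms of algebraic numbers, sharp in one height, VI: the obstruction contains
the vector of coefficients; the auxiliary polynomial.
-/

set_option autoImplicit false

namespace Run7.h197.BK

open Finset MvPolynomial Pool.Agent.H364R2 Pool.Agent.H301R2.ZG
open Pool.Agent.Y913.Bk (qc qc_add qc_sub qc_zero qc_nsmul qc_zsmul qc_inj exists_coords
  exists_mul_mem exists_mul_mem_fin card_le_of_affine)

variable {τ : Type} [Fintype τ] {x : Option τ → ℂ} (hx : ∀ j, x j ≠ 0) (b : Option τ → ℤ)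

lemma zt_zsmul_none (t N : ℤ) :
    zt x b ((t * N) • b) none = ((∏ j, x j ^ (b j)) ^ N) ^ t := by
  rw [zt_none, ← Finset.prod_zpow, ← Finset.prod_zpow]
  apply Finset.prod_congr rfl
  intro j _
  rw [Pi.smul_apply, smul_eq_mul, ← zpow_mul, ← zpow_mul]
  congr 1
  ring

omit [Fintype τ] in
lemma uu_zsmul_self (t : ℤ) (i : τ) : uu b (t • b) i = 0 := by
  unfold uu
  simp only [Pi.smul_apply, smul_eq_mul]
  ring

include hx in
theorem indep_of_mem [DecidableEq τ] {P : Ideal (MvPolynomial (Option τ) ℂ)}
    (hone : gone ad ∈ ZP ad P) (hb0 : b none ≠ 0)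
    (hy : ∀ N : ℕ, 1 ≤ N → (∏ j, x j ^ (b j)) ^ N ≠ 1)
    (V : Submodule ℚ (Option τ → ℚ))
    (hV : V ≤ Submodule.span ℚ (qc '' (Kst hx b P : Set (Option τ → ℤ))))
    (hbV : qc b ∈ V) :
    ∃ I : Finset τ, I.card + 1 = Module.finrank ℚ V ∧
      Indep P ((insert none (I.image some) : Finset (Option τ)) : Set (Option τ)) := by
  classical
  have hb0' : (b none : ℚ) ≠ 0 := by exact_mod_cast hb0
  let πV : V →ₗ[ℚ] (τ → ℚ) := (piL b).comp V.subtype
  have hker : LinearMap.ker πV = Submodule.span ℚ {(⟨qc b, hbV⟩ : V)} := by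
    apply le_antisymm
    · rintro ⟨v, hv⟩ h
      rw [LinearMap.mem_ker] at h
      have h1 : ∀ i, (b none : ℚ) * v (some i) - (b (some i) : ℚ) * v none = 0 := by
        intro i
        have := congrFun h i
        simp only [πV, LinearMap.comp_apply, Submodule.subtype_apply, piL_apply,
          Pi.zero_apply] at this
        exact this
      rw [Submodule.mem_span_singleton]
      refine ⟨v none / (b none : ℚ), ?_⟩
      apply Subtype.ext
      funext j
      show (v none / (b none : ℚ)) * qc b j = v j
      rcases j with _ | i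
      · simp only [qc]
        field_simp
      · simp only [qc]
        have := h1 i
        field_simp
        linarith
    · rw [Submodule.span_le, Set.singleton_subset_iff, SetLike.mem_coe, LinearMap.mem_ker]
      funext i
      simp only [πV, LinearMap.comp_apply, Submodule.subtype_apply, piL_apply, Pi.zero_apply, qc]
      ring
  have hbne : (⟨qc b, hbV⟩ : V) ≠ 0 := by
    intro h
    have := congrFun (congrArg Subtype.val h) none
    simp only [qc, Submodule.coe_zero, Pi.zero_apply] at this
    exact hb0' this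
  have hrk : Module.finrank ℚ (LinearMap.range πV) + 1 = Module.finrank ℚ V := by
    have h1 := LinearMap.finrank_range_add_finrank_ker πV
    rw [hker, finrank_span_singleton hbne] at h1
    exact h1
  obtain ⟨I, hI, hIV⟩ := exists_coords (LinearMap.range πV)
  refine ⟨I, by rw [hI, hrk], ?_⟩
  -- the restriction to the coordinates in `I`
  let R : LinearMap.range πV →ₗ[ℚ] ({i // i ∈ I} → ℚ) :=
    (LinearMap.funLeft ℚ ℚ (fun i : {i // i ∈ I} => i.1)).comp (LinearMap.range πV).subtype
  have hR : ∀ v i, R v i = (v : τ → ℚ) i.1 := fun v i => rfl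
  have hRinj : Function.Injective R := by
    rw [← LinearMap.ker_eq_bot, LinearMap.ker_eq_bot']
    intro v hv
    apply Subtype.ext
    apply hIV _ v.2
    intro j hj
    exact congrFun hv ⟨j, hj⟩
  have hRsurj : Function.Surjective R := by
    rw [← LinearMap.injective_iff_surjective_of_finrank_eq_finrank]
    · exact hRinj
    · rw [Module.finrank_fintype_fun_eq_card, Fintype.card_coe, hI]
  have hsurj : ∀ i : {i // i ∈ I}, ∃ v : V, ∀ j : {i // i ∈ I},
      πV v j.1 = (Pi.single i 1 : {i // i ∈ I} → ℚ) j := by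
    intro i
    obtain ⟨⟨w, v, hv⟩, hw⟩ := hRsurj (Pi.single i 1)
    refine ⟨v, fun j => ?_⟩
    rw [← hw, hR]
    rw [hv]
  choose v hv using hsurj
  obtain ⟨N, hN, hw⟩ := exists_mul_mem_fin (Kst hx b P) (fun i => (v i : Option τ → ℚ))
    (fun i => hV (v i).2)
  choose w hwK hwv using hw
  obtain ⟨N₁, hN₁, b₁, hb₁, hb₁'⟩ := exists_mul_mem (Kst hx b P) (qc b) (hV hbV)
  have hb₁e : b₁ = N₁ • b := by
    apply qc_inj
    rw [hb₁', qc_nsmul]
  have hwu : ∀ i j : {i // i ∈ I}, uu b (w i) j.1 = if i = j then (N : ℤ) else 0 := by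
    intro i j
    have h1 := piL_qc b (w i) j.1
    rw [hwv i, map_smul] at h1
    have h2 : piL b (v i : Option τ → ℚ) j.1 = (Pi.single i 1 : {i // i ∈ I} → ℚ) j := by
      rw [← hv i]
      rfl
    rw [Pi.smul_apply, h2, Pi.single_apply, smul_eq_mul] at h1
    have h3 : ((uu b (w i) j.1 : ℤ) : ℚ) = ((if i = j then (N : ℤ) else 0 : ℤ) : ℚ) := by
      rw [← h1]
      by_cases hij : i = j
      · subst hij; simp
      · have hji : ¬ j = i := fun h => hij h.symm
        simp [hij, hji]
    exact_mod_cast h3
  have hyne : (∏ j, x j ^ (b j)) ≠ 0 :=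
    Finset.prod_ne_zero_iff.mpr (fun j _ => zpow_ne_zero _ (hx j))
  have hyinj : Function.Injective (fun t : ℤ => ((∏ j, x j ^ (b j)) ^ (N₁ : ℤ)) ^ t) := by
    have haux : ∀ t t' : ℤ, t' < t → ((∏ j, x j ^ (b j)) ^ (N₁ : ℤ)) ^ t ≠
        ((∏ j, x j ^ (b j)) ^ (N₁ : ℤ)) ^ t' := by
      intro t t' htt h
      apply hy (N₁ * (t - t').toNat) (Nat.mul_pos hN₁ (by omega))
      have h1 : (((∏ j, x j ^ (b j)) ^ (N₁ : ℤ)) ^ (t - t')) = 1 := by
        rw [zpow_sub₀ (zpow_ne_zero _ hyne), h, div_self (zpow_ne_zero _ (zpow_ne_zero _ hyne))]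
      have h2 : ((t - t').toNat : ℤ) = t - t' := Int.toNat_of_nonneg (by omega)
      rw [← zpow_natCast]
      push_cast
      rw [h2, zpow_mul]
      exact h1
    intro t t' h
    rcases lt_trichotomy t t' with h1 | h1 | h1
    · exact absurd h.symm (haux _ _ h1)
    · exact h1
    · exact absurd h (haux _ _ h1)
  intro f hf hfP
  -- the values on the fibres
  have hfib : ∀ z : Option τ → ℂ, (∀ i : {i // i ∈ I}, ∃ k : ℤ, z (some i.1) = (N : ℂ) * k) →
      eval z f = 0 := by
    intro z hz
    choose k hk using hz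
    let g : Polynomial ℂ := aeval (fun j : Option τ => j.elim Polynomial.X
      (fun i => Polynomial.C (z (some i)))) f
    have hg : ∀ w : ℂ, Polynomial.eval w g =
        eval (fun j : Option τ => j.elim w (fun i => z (some i))) f := by
      intro w
      simp only [g]
      rw [← Polynomial.coe_evalRingHom, aeval_def, eval₂_comp_left]
      have e1 : (fun j : Option τ => (Polynomial.evalRingHom w) (j.elim Polynomial.X
        (fun i => Polynomial.C (z (some i))))) =
        (fun j : Option τ => j.elim w (fun i => z (some i))) := by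
        funext j
        rcases j with _ | i
        · simp
        · simp
      have e2 : (Polynomial.evalRingHom w).comp (algebraMap ℂ (Polynomial ℂ)) = RingHom.id ℂ := by
        ext c <;> simp
      rw [e2]
      unfold MvPolynomial.eval
      rw [← e1]
      rfl
    have hg0 : g = 0 := by
      apply Polynomial.eq_zero_of_infinite_isRoot
      let s0 : Option τ → ℤ := ∑ i, k i • w i
      have hs0 : s0 ∈ Kst hx b P :=
        AddSubgroup.sum_mem _ (fun i _ => AddSubgroup.zsmul_mem _ (hwK i) _)
      have hs1 : ∀ t : ℤ, s0 + (t * (N₁ : ℤ)) • b ∈ Kst hx b P := by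
        intro t
        apply AddSubgroup.add_mem _ hs0
        have h1 := AddSubgroup.zsmul_mem _ hb₁ t
        rw [hb₁e] at h1
        rw [mul_smul]
        simpa using h1
      apply Set.infinite_of_injective_forall_mem
        (f := fun t : ℤ => zt x b (s0 + (t * (N₁ : ℤ)) • b) none)
      · intro t t' h
        simp only at h
        have e : ∀ t : ℤ, zt x b (s0 + (t * (N₁ : ℤ)) • b) none =
            zt x b s0 none * ((∏ j, x j ^ (b j)) ^ (N₁ : ℤ)) ^ t := by
          intro t
          rw [← gmul_zt hx, ← zt_zsmul_none]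
          simp [gmul, ad]
        rw [e, e] at h
        have hne : zt x b s0 none ≠ 0 := isG_zt hx b s0 none rfl
        exact hyinj (mul_left_cancel₀ hne h)
      · intro t
        show Polynomial.IsRoot g _
        rw [Polynomial.IsRoot, hg]
        have h1 := (zt_mem_ZP hx b hone (hs1 t)).2 f hfP
        rw [← h1]
        apply eval_eq_of_supported hf
        intro j hj
        rw [Finset.mem_coe, Finset.mem_insert, Finset.mem_image] at hj
        rcases hj with rfl | ⟨i, hi, rfl⟩
        · rfl
        rw [zt_some, Option.elim_some, hk ⟨i, hi⟩]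
        have h4 : uu b (∑ i, k i • w i) i = N * k ⟨i, hi⟩ := by
          have h5 : ∀ (t : Finset {i // i ∈ I}), uu b (∑ i ∈ t, k i • w i) i =
              ∑ i' ∈ t, k i' * uu b (w i') i := by
            intro t
            induction t using Finset.induction_on with
            | empty => simp [uu]
            | insert a t ha ih =>
              rw [Finset.sum_insert ha, Finset.sum_insert ha, uu_add, ih]
              congr 1
              unfold uu
              simp only [Pi.smul_apply, smul_eq_mul]
              ring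
          rw [h5]
          have h6 : ∀ i' : {i // i ∈ I}, k i' * uu b (w i') i =
              if i' = ⟨i, hi⟩ then (N : ℤ) * k ⟨i, hi⟩ else 0 := by
            intro i'
            rw [hwu i' ⟨i, hi⟩]
            split_ifs with h7
            · rw [h7]; ring
            · ring
          rw [Finset.sum_congr rfl (fun i' _ => h6 i')]
          simp
        rw [uu_add, uu_zsmul_self, add_zero, h4]
        push_cast
        rfl
    have h8 := hg (z none)
    rw [hg0, Polynomial.eval_zero] at h8
    rw [h8]
    congr 2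
    funext j
    rcases j with _ | i
    · rfl
    · rfl
  apply MvPolynomial.funext_set (fun j : Option τ => if j ∈ (I.image some : Finset (Option τ)) then
    {z : ℂ | ∃ k : ℤ, z = (N : ℂ) * k} else Set.univ)
  · intro j
    split_ifs
    · apply Set.infinite_of_injective_forall_mem (f := fun k : ℤ => (N : ℂ) * (k : ℂ))
      · intro k k' h
        have hN' : (N : ℂ) ≠ 0 := by exact_mod_cast hN.ne'
        have := mul_left_cancel₀ hN' h
        exact_mod_cast this
      · intro k
        exact ⟨k, rfl⟩
    · exact Set.infinite_univ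
  · intro z hz
    rw [map_zero]
    apply hfib
    intro i
    have h2 := hz (some i.1) (Set.mem_univ _)
    dsimp only at h2
    rw [if_pos (Finset.mem_image_of_mem some i.2)] at h2
    exact h2

include hx in
/-- the full rank case -/
theorem eq_bot_of_full [DecidableEq τ] {P : Ideal (MvPolynomial (Option τ) ℂ)}
    (hone : gone ad ∈ ZP ad P) (hb0 : b none ≠ 0)
    (hy : ∀ N : ℕ, 1 ≤ N → (∏ j, x j ^ (b j)) ^ N ≠ 1)
    (V : Submodule ℚ (Option τ → ℚ))
    (hV : V ≤ Submodule.span ℚ (qc '' (Kst hx b P : Set (Option τ → ℤ))))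
    (hfull : Module.finrank ℚ V = Fintype.card (Option τ)) : P = ⊥ := by
  classical
  have hVtop : V = ⊤ := by
    apply Submodule.eq_top_of_finrank_eq
    rw [hfull, Module.finrank_fintype_fun_eq_card]
  obtain ⟨I, hI, hind⟩ := indep_of_mem hx b hone hb0 hy V hV (by rw [hVtop]; exact Submodule.mem_top)
  rw [hfull, Fintype.card_option] at hI
  have hIu : I = Finset.univ := by
    apply Finset.eq_univ_of_card
    omega
  rw [eq_bot_iff]
  intro f hf
  rw [Ideal.mem_bot]
  apply hind f _ hf
  have h1 : ((insert none (I.image some) : Finset (Option τ)) : Set (Option τ)) = Set.univ := by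
    rw [Set.eq_univ_iff_forall]
    intro j
    rw [Finset.mem_coe, Finset.mem_insert]
    rcases j with _ | i
    · exact Or.inl rfl
    · right
      rw [hIu]
      simp
  rw [h1, MvPolynomial.supported_univ]
  exact Algebra.mem_top

/-- binomial polynomial in an additive coordinate -/
noncomputable def bm (j : τ) (l : ℕ) : MvPolynomial (Option τ) ℂ :=
  ∏ t ∈ range l, (C (1 / ((t : ℂ) + 1)) * (X (some j) - C (t : ℂ)))

omit [Fintype τ] in
lemma eval_bm (z : Option τ → ℂ) (j : τ) (l : ℕ) : eval z (bm j l) = bp l (z (some j)) := by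
  unfold bm bp
  rw [map_prod]
  apply Finset.prod_congr rfl
  intro t _
  simp only [map_mul, map_sub, eval_C, eval_X]
  ring

omit [Fintype τ] in
lemma degreeOf_bm [DecidableEq τ] (j k : τ) (l : ℕ) :
    degreeOf (some k) (bm j l) ≤ if k = j then l else 0 := by
  unfold bm
  refine (degreeOf_prod_le _ _ _).trans ?_
  have h1 : ∀ t ∈ range l, degreeOf (some k) (C (1 / ((t : ℂ) + 1)) *
      (X (some j) - C (t : ℂ)) : MvPolynomial (Option τ) ℂ) ≤ if k = j then 1 else 0 := by
    intro t _
    refine (degreeOf_mul_le _ _ _).trans ?_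
    rw [degreeOf_C, zero_add]
    refine (degreeOf_sub_le _ _ _).trans ?_
    rw [degreeOf_C, degreeOf_X]
    simp only [Option.some.injEq]
    exact max_le le_rfl (Nat.zero_le _)
  refine (Finset.sum_le_sum h1).trans ?_
  rw [Finset.sum_const, Finset.card_range, smul_eq_mul]
  split_ifs <;> omega

omit [Fintype τ] in
lemma degreeOf_bm_none (j : τ) (l : ℕ) : degreeOf none (bm j l) = 0 := by
  classical
  apply Nat.eq_zero_of_le_zero
  unfold bm
  refine (degreeOf_prod_le _ _ _).trans ?_
  apply le_of_eq
  apply Finset.sum_eq_zero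
  intro t _
  apply Nat.eq_zero_of_le_zero
  refine (degreeOf_mul_le _ _ _).trans ?_
  rw [degreeOf_C, zero_add]
  refine (degreeOf_sub_le _ _ _).trans ?_
  rw [degreeOf_C, degreeOf_X]
  simp

/-- the auxiliary polynomial -/
noncomputable def polyF [DecidableEq τ] {Q L : ℕ} (G : ((τ → Fin Q) × Fin L) → ℤ) :
    MvPolynomial (Option τ) ℂ :=
  ∑ i, C (G i : ℂ) * ((∏ j, bm j (i.1 j : ℕ)) * X none ^ (i.2 : ℕ))

lemma eval_polyF [DecidableEq τ] {Q L : ℕ} (G : ((τ → Fin Q) × Fin L) → ℤ)
    (z : Option τ → ℂ) :
    eval z (polyF G) = ∑ i, (G i : ℂ) * ((∏ j, bp (i.1 j : ℕ) (z (some j))) *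
      z none ^ (i.2 : ℕ)) := by
  unfold polyF
  rw [map_sum]
  apply Finset.sum_congr rfl
  intro i _
  rw [map_mul, map_mul, map_prod, map_pow, eval_C, eval_X]
  simp only [eval_bm]

lemma polyF_mem_box [DecidableEq τ] {Q L : ℕ} (G : ((τ → Fin Q) × Fin L) → ℤ) :
    polyF G ∈ box ℂ (fun j : Option τ => j.elim L (fun _ => Q)) 1 := by
  classical
  unfold polyF
  apply Submodule.sum_mem
  intro i _
  rw [mem_box]
  intro m hm j
  rw [one_mul]
  have hall : degreeOf j (C (G i : ℂ) * ((∏ j, bm j (i.1 j : ℕ)) * X none ^ (i.2 : ℕ)) :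
      MvPolynomial (Option τ) ℂ) ≤ (j.elim L (fun _ => Q) : ℕ) := by
    refine (degreeOf_mul_le _ _ _).trans ?_
    rw [degreeOf_C, zero_add]
    refine (degreeOf_mul_le _ _ _).trans ?_
    rcases j with _ | k
    · have h1 : degreeOf none (∏ j, bm j (i.1 j : ℕ) : MvPolynomial (Option τ) ℂ) = 0 := by
        apply Nat.eq_zero_of_le_zero
        refine (degreeOf_prod_le _ _ _).trans ?_
        apply le_of_eq
        apply Finset.sum_eq_zero
        intro t _
        exact degreeOf_bm_none _ _
      have h2 : degreeOf none (X none ^ (i.2 : ℕ) : MvPolynomial (Option τ) ℂ) ≤ (i.2 : ℕ) := by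
        refine (degreeOf_pow_le _ _ _).trans ?_
        rw [degreeOf_X, if_pos rfl, mul_one]
      rw [h1, zero_add]
      exact h2.trans i.2.isLt.le
    · have h1 : degreeOf (some k) (∏ j, bm j (i.1 j : ℕ) : MvPolynomial (Option τ) ℂ) ≤
          (i.1 k : ℕ) := by
        refine (degreeOf_prod_le _ _ _).trans ?_
        refine (Finset.sum_le_sum (fun j _ => degreeOf_bm j k _)).trans ?_
        simp
      have h2 : degreeOf (some k) (X none ^ (i.2 : ℕ) : MvPolynomial (Option τ) ℂ) ≤ 0 := by
        refine (degreeOf_pow_le _ _ _).trans ?_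
        rw [degreeOf_X, if_neg (by simp), mul_zero]
      exact (add_le_add h1 h2).trans ((add_zero _).le.trans (i.1 k).isLt.le)
  exact (degreeOf_le_iff.mp hall) m hm

lemma polyF_ne_zero [DecidableEq τ] {Q L : ℕ} {G : ((τ → Fin Q) × Fin L) → ℤ} (hG : G ≠ 0) :
    polyF G ≠ 0 := by
  classical
  intro h0
  -- a nonzero coefficient with minimal sum of the additive exponents
  have hne : (Finset.univ.filter (fun i => G i ≠ 0)).Nonempty := by
    by_contra hcon
    rw [Finset.not_nonempty_iff_eq_empty] at hcon
    apply hG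
    funext i
    by_contra hi
    have : i ∈ Finset.univ.filter (fun i => G i ≠ 0) := Finset.mem_filter.mpr ⟨Finset.mem_univ _, hi⟩
    rw [hcon] at this
    exact absurd this (Finset.notMem_empty _)
  obtain ⟨i0, hi0, hmin⟩ := Finset.exists_min_image _
    (fun i : (τ → Fin Q) × Fin L => ∑ j, (i.1 j : ℕ)) hne
  rw [Finset.mem_filter] at hi0
  -- the polynomial in the multiplicative coordinate
  let g : Polynomial ℂ := ∑ k : Fin L, Polynomial.monomial (k : ℕ) ((G (i0.1, k) : ℤ) : ℂ)
  have hg0 : g = 0 := by
    apply Polynomial.funext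
    intro w
    rw [Polynomial.eval_zero]
    have h1 := eval_polyF G (fun j : Option τ => j.elim w (fun i => ((i0.1 i : ℕ) : ℂ)))
    rw [h0, map_zero] at h1
    rw [h1]
    simp only [Option.elim_some, Option.elim_none]
    rw [Fintype.sum_prod_type]
    rw [Finset.sum_eq_single i0.1]
    · simp only [g, Polynomial.eval_finsetSum, Polynomial.eval_monomial]
      apply Finset.sum_congr rfl
      intro k _
      rw [Finset.prod_congr rfl (fun j _ => bp_nat_self (i0.1 j : ℕ))]
      simp
    · intro l _ hl
      apply Finset.sum_eq_zero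
      intro k _
      by_cases hGl : G (l, k) = 0
      · rw [hGl]; simp
      have h2 := hmin (l, k) (Finset.mem_filter.mpr ⟨Finset.mem_univ _, hGl⟩)
      simp only at h2
      have h3 : ∃ j, (i0.1 j : ℕ) < (l j : ℕ) := by
        by_contra hcon
        push Not at hcon
        apply hl
        have h4 : ∑ j, (l j : ℕ) ≤ ∑ j, (i0.1 j : ℕ) := Finset.sum_le_sum (fun j _ => hcon j)
        have h5 : ∑ j, (l j : ℕ) = ∑ j, (i0.1 j : ℕ) := le_antisymm h4 h2
        have h6 := (Finset.sum_eq_sum_iff_of_le (fun j _ => hcon j)).mp h5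
        funext j
        exact Fin.ext (h6 j (Finset.mem_univ _))
      obtain ⟨j, hj⟩ := h3
      have h4 : ∏ j, bp (l j : ℕ) ((i0.1 j : ℕ) : ℂ) = 0 :=
        Finset.prod_eq_zero (Finset.mem_univ j) (bp_nat_eq_zero hj)
      rw [h4]
      simp
    · intro h; exact absurd (Finset.mem_univ _) h
  apply hi0.2
  have h2 := congrArg (fun p : Polynomial ℂ => p.coeff (i0.2 : ℕ)) hg0
  simp only [g, Polynomial.finset_sum_coeff, Polynomial.coeff_monomial, Polynomial.coeff_zero] at h2
  rw [Finset.sum_eq_single i0.2] at h2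
  · rw [if_pos rfl] at h2
    exact_mod_cast h2
  · intro k _ hk
    rw [if_neg]
    intro h
    exact hk (Fin.ext h)
  · intro h; exact absurd (Finset.mem_univ _) h

end Run7.h197.BK
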